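import Mathlib

/-!
# Global sections of quasi-coherent sheaves on affine schemes
-/

namespace Pool.Agent.Helper49.KT

open CategoryTheory Limits AlgebraicGeometry Function

universe u

section Gamma

variable {R : CommRingCat.{u}}

instance : (moduleSpecΓFunctor (R := R)).IsRightAdjoint := tilde.adjunction.isRightAdjoint

instance : (moduleSpecΓFunctor (R := R)).Additive := by
  have := Limits.preservesBinaryBiproducts_of_preservesBinaryProducts
    (moduleSpecΓFunctor (R := R))
  exact Functor.additive_of_preservesBinaryBiproducts (moduleSpecΓFunctor (R := R))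

instance (M : (Spec (.of R)).Modules) [M.IsQuasicoherent] :
    IsIso ((Scheme.Modules.fromTildeΓNatTrans (R := R)).app M) :=
  inferInstanceAs (IsIso M.fromTildeΓ)

lemma epi_gamma {M N : (Spec (.of R)).Modules} [M.IsQuasicoherent] [N.IsQuasicoherent] (g : M ⟶ N)
    [Epi g] : Epi ((moduleSpecΓFunctor (R := R)).map g) := by
  have h1 := (Scheme.Modules.fromTildeΓNatTrans (R := R)).naturality g
  have h2 : Epi ((moduleSpecΓFunctor (R := R) ⋙ tilde.functor (R := R)).map g) := by
    have h3 : (moduleSpecΓFunctor (R := R) ⋙ tilde.functor (R := R)).map g =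
        (Scheme.Modules.fromTildeΓNatTrans (R := R)).app M ≫ g ≫
          inv ((Scheme.Modules.fromTildeΓNatTrans (R := R)).app N) := by
      rw [← Category.assoc, IsIso.eq_comp_inv]
      exact h1
    rw [h3]
    infer_instance
  exact (tilde.functor R).epi_of_epi_map h2

/-- global sections are exact on quasi-coherent sheaves -/
lemma shortExact_gamma (S : ShortComplex (Spec (.of R)).Modules) (hS : S.ShortExact)
    [S.X₂.IsQuasicoherent] [S.X₃.IsQuasicoherent] :
    (S.map (moduleSpecΓFunctor (R := R))).ShortExact := by
  have := hS.mono_f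
  have := hS.epi_g
  refine ShortComplex.ShortExact.mk' ?_ ?_ ?_
  · exact hS.exact.map_of_mono_of_preservesKernel _ inferInstance inferInstance
  · exact (inferInstance : Mono ((moduleSpecΓFunctor (R := R)).map S.f))
  · exact epi_gamma S.g

end Gamma

section Pull

variable {R S : CommRingCat.{u}} (φ : R ⟶ S)

/-- global sections of a pushforward -/
noncomputable def gammaPush :
    Scheme.Modules.pushforward (Spec.map φ) ⋙ moduleSpecΓFunctor (R := R) ≅
      moduleSpecΓFunctor (R := S) ⋙ ModuleCat.restrictScalars φ.hom :=
  Functor.isoWhiskerRight (pushforwardCompModulesSpecToSheafIso φ)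
    (TopCat.Sheaf.forget _ _ ⋙ (evaluation _ _).obj (.op ⊤))

/-- pullback of the sheaf attached to a module -/
noncomputable def pullTilde :
    tilde.functor R ⋙ Scheme.Modules.pullback (Spec.map φ) ≅
      ModuleCat.extendScalars φ.hom ⋙ tilde.functor S :=
  Adjunction.leftAdjointUniq
    (tilde.adjunction.comp (Scheme.Modules.pullbackPushforwardAdjunction (Spec.map φ)))
    (((ModuleCat.extendRestrictScalarsAdj φ.hom).comp tilde.adjunction).ofNatIsoRight
      (gammaPush φ).symm)

end Pull

section Tilde

variable {R : CommRingCat.{u}}

set_option backward.isDefEq.respectTransparency false in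
lemma mono_tilde {M N : ModuleCat.{u} R} (f : M ⟶ N) [Mono f] : Mono ((tilde.functor R).map f) := by
  have hf : Injective f.hom := (ModuleCat.mono_iff_injective f).1 inferInstance
  have h1 : ∀ U : (Spec (.of R)).Opens,
      Mono (Scheme.Modules.Hom.app ((tilde.functor R).map f) U) := by
    intro U
    rw [AddCommGrpCat.mono_iff_injective]
    intro x y hxy
    refine Subtype.ext (funext fun p => ?_)
    have h2 := congrFun (congrArg Subtype.val hxy) p
    exact IsLocalizedModule.map_injective p.1.asIdeal.primeCompl
      (LocalizedModule.mkLinearMap p.1.asIdeal.primeCompl M)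
      (LocalizedModule.mkLinearMap p.1.asIdeal.primeCompl N) f.hom hf h2
  have h3 : Mono ((Scheme.Modules.toPresheaf (Spec (.of R))).map ((tilde.functor R).map f)) := by
    have : ∀ U, Mono (((Scheme.Modules.toPresheaf (Spec (.of R))).map
        ((tilde.functor R).map f)).app U) := fun U => h1 U.unop
    exact NatTrans.mono_of_mono_app _
  exact (Scheme.Modules.toPresheaf (Spec (.of R))).mono_of_mono_map h3

/-- the tilde functor is exact -/
lemma shortExact_tilde (S : ShortComplex (ModuleCat.{u} R)) (hS : S.ShortExact) :
    (S.map (tilde.functor R)).ShortExact := by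
  have := hS.mono_f
  have := hS.epi_g
  refine ShortComplex.ShortExact.mk' ?_ ?_ ?_
  · exact hS.exact.map_of_epi_of_preservesCokernel _ inferInstance inferInstance
  · exact mono_tilde S.f
  · exact (inferInstance : Epi ((tilde.functor R).map S.g))

end Tilde

end Pool.Agent.Helper49.KT
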