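import Mathlib

/-!
# The group K₁ of coherent sheaves by double short exact sequences, and models

`K₁ C P` is the group of Nenashev's presentation of the first algebraic K-group of the exact
category of objects of the abelian category `C` with property `P`.
-/

namespace Pool.Agent.Helper49.KT

open CategoryTheory Limits AlgebraicGeometry TensorProduct

universe w v u

section Exact

variable (C : Type u) [Category.{v} C] [Abelian C]

variable {C} in
/-- A short exact sequence `0 ⟶ A ⟶ B ⟶ D ⟶ 0` with given terms. -/
structure SES (A B D : C) where
  /-- the monomorphism -/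
  f : A ⟶ B
  /-- the epimorphism -/
  g : B ⟶ D
  zero : f ≫ g = 0
  shortExact : (ShortComplex.mk f g zero).ShortExact

/-- A double short exact sequence: three objects with property `P` and two short exact
sequences on them. -/
structure DSES (P : ObjectProperty C) where
  /-- the first term -/
  A : C
  /-- the middle term -/
  B : C
  /-- the last term -/
  D : C
  hA : P A
  hB : P B
  hD : P D
  /-- the first short exact sequence -/
  top : SES A B D
  /-- the second short exact sequence -/
  bot : SES A B D

variable {C} in
/-- A commutative diagram with three rows and three columns, all short exact. -/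
structure Grid (X : Fin 3 → Fin 3 → C) where
  /-- the rows -/
  row : ∀ i, SES (X i 0) (X i 1) (X i 2)
  /-- the columns -/
  col : ∀ j, SES (X 0 j) (X 1 j) (X 2 j)
  c00 : (row 0).f ≫ (col 1).f = (col 0).f ≫ (row 1).f
  c01 : (row 0).g ≫ (col 2).f = (col 1).f ≫ (row 1).g
  c10 : (row 1).f ≫ (col 1).g = (col 0).g ≫ (row 2).f
  c11 : (row 1).g ≫ (col 2).g = (col 1).g ≫ (row 2).g

/-- Two commutative three by three diagrams on the same nine objects with property `P`. -/
structure DGrid (P : ObjectProperty C) where
  /-- the nine objects -/
  X : Fin 3 → Fin 3 → C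
  hX : ∀ i j, P (X i j)
  /-- the first diagram -/
  top : Grid X
  /-- the second diagram -/
  bot : Grid X

variable {C}

/-- a row of a double diagram -/
def DGrid.row {P : ObjectProperty C} (G : DGrid C P) (i : Fin 3) : DSES C P :=
  ⟨_, _, _, G.hX i 0, G.hX i 1, G.hX i 2, G.top.row i, G.bot.row i⟩

/-- a column of a double diagram -/
def DGrid.col {P : ObjectProperty C} (G : DGrid C P) (j : Fin 3) : DSES C P :=
  ⟨_, _, _, G.hX 0 j, G.hX 1 j, G.hX 2 j, G.top.col j, G.bot.col j⟩

variable (C) in
/-- Nenashev's relations: a double short exact sequence whose two sequences coincide is zero, and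
the alternating sum of the rows of a double three by three diagram equals that of its columns. -/
def relations (P : ObjectProperty C) : Set (FreeAbelianGroup (DSES C P)) :=
  {x | ∃ l : DSES C P, l.top = l.bot ∧ x = FreeAbelianGroup.of l} ∪
  {x | ∃ G : DGrid C P, x =
    (FreeAbelianGroup.of (G.row 0) - FreeAbelianGroup.of (G.row 1) +
      FreeAbelianGroup.of (G.row 2)) -
    (FreeAbelianGroup.of (G.col 0) - FreeAbelianGroup.of (G.col 1) +
      FreeAbelianGroup.of (G.col 2))}

variable (C) in
/-- The first K-group of the exact category of objects with property `P`, in Nenashev's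
presentation. -/
abbrev K₁ (P : ObjectProperty C) : Type (max u v) :=
  FreeAbelianGroup (DSES C P) ⧸ AddSubgroup.closure (relations C P)

/-- the class of a double short exact sequence -/
def K₁.mk {P : ObjectProperty C} (l : DSES C P) : K₁ C P :=
  QuotientAddGroup.mk (FreeAbelianGroup.of l)

/-- A short exact sequence is carried to another one by a functor and three isomorphisms. -/
def SES.IsImage {C' : Type w} [Category.{v} C'] [Abelian C'] (F : C' ⥤ C) {A B D : C}
    {A' B' D' : C'} (s : SES A B D) (s' : SES A' B' D') (eA : A ≅ F.obj A') (eB : B ≅ F.obj B')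
    (eD : D ≅ F.obj D') : Prop :=
  s.f ≫ eB.hom = eA.hom ≫ F.map s'.f ∧ s.g ≫ eD.hom = eB.hom ≫ F.map s'.g

/-- `l` is isomorphic to the image of `l'` under the functor `F`. -/
def DSES.IsImage {C' : Type w} [Category.{v} C'] [Abelian C'] (F : C' ⥤ C)
    {P : ObjectProperty C} {P' : ObjectProperty C'} (l : DSES C P) (l' : DSES C' P') : Prop :=
  ∃ (eA : l.A ≅ F.obj l'.A) (eB : l.B ≅ F.obj l'.B) (eD : l.D ≅ F.obj l'.D),
    l.top.IsImage F l'.top eA eB eD ∧ l.bot.IsImage F l'.bot eA eB eD

end Exact

/-- Coherent sheaves on a locally noetherian scheme: quasi-coherent modules whose sections over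
every affine open form a finitely generated module. -/
def Coh (X : Scheme.{u}) : ObjectProperty X.Modules := fun M =>
  M.IsQuasicoherent ∧ ∀ U : X.Opens, IsAffineOpen U → Module.Finite Γ(X, U) Γ(M, U)

/-- The group `K'₁(X)` of coherent sheaves on `X`, tensored with the rational numbers. -/
abbrev K₁Q (X : Scheme.{u}) : Type (u + 1) := ℚ ⊗[ℤ] K₁ X.Modules (Coh X)

/-- The class in `K'₁(X) ⊗ ℚ` of a double short exact sequence of coherent sheaves. -/
noncomputable def K₁Q.mk {X : Scheme.{u}} (l : DSES X.Modules (Coh X)) : K₁Q X :=
  (1 : ℚ) ⊗ₜ[ℤ] K₁.mk l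

/-- A proper flat model over the integers of a scheme over the rational numbers. -/
structure Model {X : Scheme.{0}} (s : X ⟶ Spec (.of ℚ)) where
  /-- the total space of the model -/
  total : Scheme.{0}
  /-- its structure morphism -/
  str : total ⟶ Spec (.of ℤ)
  /-- the inclusion of the generic fibre -/
  gen : X ⟶ total
  proper : IsProper str
  flat : Flat str
  isPullback : IsPullback gen s str (Spec.map (CommRingCat.ofHom (algebraMap ℤ ℚ)))

/-- The image of `K'₁` of the model, tensored with the rational numbers, in that of the generic
fibre: the rational subspace spanned by the classes of the double short exact sequences that are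
pulled back from double short exact sequences of coherent sheaves on the model. -/
def Model.image {X : Scheme.{0}} {s : X ⟶ Spec (.of ℚ)} (m : Model s) : Set (K₁Q X) :=
  Submodule.span ℚ {x | ∃ (l : DSES X.Modules (Coh X)) (l' : DSES m.total.Modules (Coh m.total)),
    l.IsImage (Scheme.Modules.pullback m.gen) l' ∧ x = K₁Q.mk l}

end Pool.Agent.Helper49.KT
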