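import Pool.Agent.Helper49.KT.Integral
import Pool.Agent.Helper49.KT.Defs
import Pool.Agent.Helper49.KT.Bridge1

/-!
# From double short exact sequences of sheaves to modules
-/

namespace Pool.Agent.Helper49.KT

open CategoryTheory Limits AlgebraicGeometry Function TensorProduct

universe u

section Ext

variable {R S : Type u} [CommRing R] [CommRing S] [Algebra R S]

set_option backward.isDefEq.respectTransparency false in
/-- the restriction of scalars of `S` -/
noncomputable def resEquiv :
    (ModuleCat.restrictScalars (algebraMap R S)).obj (ModuleCat.of S S) ≃ₗ[R] S :=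
  { AddEquiv.refl S with
    map_smul' := fun r x => (Algebra.smul_def r (show S from x)).symm }

set_option backward.isDefEq.respectTransparency false in
/-- extension of scalars -/
noncomputable def extEquiv (M : ModuleCat.{u} R) :
    ((ModuleCat.extendScalars (algebraMap R S)).obj M) ≃ₗ[S] (S ⊗[R] M) :=
  { (TensorProduct.congr (resEquiv (R := R) (S := S)) (LinearEquiv.refl R M)).toAddEquiv with
    map_smul' := fun s x => by
      change (TensorProduct.congr (resEquiv (R := R) (S := S)) (LinearEquiv.refl R M)) (s • x) =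
        s • (TensorProduct.congr (resEquiv (R := R) (S := S)) (LinearEquiv.refl R M)) x
      induction x using TensorProduct.induction_on with
      | zero => simp
      | add x y hx hy => rw [smul_add, map_add, map_add, hx, hy, smul_add]
      | tmul a m => rfl }

lemma extEquiv_naturality {M N : ModuleCat.{u} R} (f : M ⟶ N)
    (x : (ModuleCat.extendScalars (algebraMap R S)).obj M) :
    extEquiv N ((ModuleCat.extendScalars (algebraMap R S)).map f x) =
      f.hom.baseChange S (extEquiv M x) := by
  let α : (ModuleCat.extendScalars (algebraMap R S)).obj M ⟶ ModuleCat.of S (S ⊗[R] N) :=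
    (ModuleCat.extendScalars (algebraMap R S)).map f ≫
      ModuleCat.ofHom (X := (ModuleCat.extendScalars (algebraMap R S)).obj N)
        (extEquiv (S := S) N).toLinearMap
  let β : (ModuleCat.extendScalars (algebraMap R S)).obj M ⟶ ModuleCat.of S (S ⊗[R] N) :=
    ModuleCat.ofHom (X := (ModuleCat.extendScalars (algebraMap R S)).obj M)
      (f.hom.baseChange S ∘ₗ (extEquiv (S := S) M).toLinearMap)
  have key : α = β := ModuleCat.ExtendScalars.hom_ext fun m => rfl
  exact congrArg (fun h => h.hom x) key

end Ext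

section Coh

/-- a short exact sequence in the category of modules -/
def lsesOf {R : Type u} [CommRing R] (S : ShortComplex (ModuleCat.{u} R)) (hS : S.ShortExact) :
    LSES R S.X₁ S.X₂ S.X₃ where
  f := S.f.hom
  g := S.g.hom
  inj := hS.moduleCat_injective_f
  ex := (ShortComplex.ShortExact.moduleCat_exact_iff_function_exact _).1 hS.exact
  surj := hS.moduleCat_surjective_g

variable {R : CommRingCat.{u}}

/-- global sections of a short exact sequence of quasi-coherent sheaves -/
noncomputable def SES.gam {A B D : (Spec (.of R)).Modules} (hB : B.IsQuasicoherent)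
    (hD : D.IsQuasicoherent) (s : SES A B D) :
    LSES R ((moduleSpecΓFunctor (R := R)).obj A) ((moduleSpecΓFunctor (R := R)).obj B)
      ((moduleSpecΓFunctor (R := R)).obj D) :=
  lsesOf ((ShortComplex.mk s.f s.g s.zero).map (moduleSpecΓFunctor (R := R)))
    (shortExact_gamma _ s.shortExact)

lemma finite_top : Module.Finite R Γ(Spec (.of R), ⊤) := by
  have h : Function.Surjective (algebraMap R Γ(Spec (.of R), ⊤)) := by
    have : IsIso (Scheme.ΓSpecIso R).inv := inferInstance
    exact ((ConcreteCategory.isIso_iff_bijective (Scheme.ΓSpecIso R).inv).1 this).2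
  exact Module.Finite.of_surjective (Algebra.linearMap R _) h

lemma finite_gamma {M : (Spec (.of R)).Modules} (h : Coh _ M) :
    Module.Finite R ((moduleSpecΓFunctor (R := R)).obj M) := by
  have h1 : Module.Finite Γ(Spec (.of R), ⊤) Γ(M, ⊤) := h.2 ⊤ (isAffineOpen_top _)
  have h2 : Module.Finite R Γ(Spec (.of R), ⊤) := finite_top
  have h3 : Module.Finite R Γ(M, ⊤) := Module.Finite.trans Γ(Spec (.of R), ⊤) _
  exact h3

end Coh

section Iso

variable {K A B C A' B' C' : Type*} [Field K] [AddCommGroup A] [Module K A] [AddCommGroup B]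
    [Module K B] [AddCommGroup C] [Module K C] [AddCommGroup A'] [Module K A'] [AddCommGroup B']
    [Module K B'] [AddCommGroup C'] [Module K C']

/-- `D` only depends on the isomorphism class -/
lemma D_iso [Module.Finite K A] [Module.Finite K C] [Module.Finite K A'] [Module.Finite K C']
    {s t : LSES K A B C} {s' t' : LSES K A' B' C'} (eA : A ≃ₗ[K] A')
    (eB : B ≃ₗ[K] B') (eC : C ≃ₗ[K] C') (hs1 : ∀ x, eB (s.f x) = s'.f (eA x))
    (hs2 : ∀ x, eC (s.g x) = s'.g (eB x)) (ht1 : ∀ x, eB (t.f x) = t'.f (eA x))
    (ht2 : ∀ x, eC (t.g x) = t'.g (eB x)) : D s t = D s' t' := by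
  obtain ⟨τ, hτ⟩ := exists_carries s.inj s.ex s.surj t.inj t.ex t.surj
  let τ' : B' ≃ₗ[K] B' := eB.symm.trans (τ.trans eB)
  rw [D_spec s t τ hτ, D_spec s' t' τ' ?_]
  · apply Units.ext
    rw [LinearEquiv.coe_det, LinearEquiv.coe_det]
    exact (LinearMap.det_conj (τ : B →ₗ[K] B) eB).symm
  · refine ⟨fun u => ?_, fun v => ?_⟩
    · obtain ⟨a, rfl⟩ := eA.surjective u
      simp only [τ', LinearEquiv.trans_apply]
      rw [← hs1, LinearEquiv.symm_apply_apply, hτ.1, ht1]
    · obtain ⟨b, rfl⟩ := eB.surjective v
      simp only [τ', LinearEquiv.trans_apply]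
      rw [LinearEquiv.symm_apply_apply, ← ht2, hτ.2, hs2]

end Iso

section Det

variable {K : Type u} [Field K]

/-- the determinant of a double short exact sequence of coherent sheaves on the spectrum
of a field -/
noncomputable def dd (l : DSES (Spec (.of K)).Modules (Coh (Spec (.of K)))) : Kˣ :=
  D (K := K) (l.top.gam (R := .of K) l.hB.1 l.hD.1) (l.bot.gam (R := .of K) l.hB.1 l.hD.1)

lemma comm_gam {C : Type*} [Category C] {R : Type u} [CommRing R] (F : C ⥤ ModuleCat.{u} R)
    {P Q S T : C} (a : P ⟶ Q) (b : Q ⟶ T) (c : P ⟶ S) (d : S ⟶ T) (h : a ≫ b = c ≫ d)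
    (x : F.obj P) : (F.map b).hom ((F.map a).hom x) = (F.map d).hom ((F.map c).hom x) := by
  have h1 := congrArg F.map h
  rw [F.map_comp, F.map_comp] at h1
  exact congrArg (fun h => h.hom x) h1

/-- the grid of global sections -/
noncomputable def Grid.gam {X : Fin 3 → Fin 3 → (Spec (.of K)).Modules}
    (hX : ∀ i j, (X i j).IsQuasicoherent) (G : Grid X) :
    LGrid K (fun i j => ((moduleSpecΓFunctor (R := .of K)).obj (X i j) : Type u)) where
  row i := (G.row i).gam (R := .of K) (hX i 1) (hX i 2)
  col j := (G.col j).gam (R := .of K) (hX 1 j) (hX 2 j)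
  c00 x := comm_gam (moduleSpecΓFunctor (R := .of K)) _ _ _ _ G.c00 x
  c01 x := comm_gam (moduleSpecΓFunctor (R := .of K)) _ _ _ _ G.c01 x
  c10 x := comm_gam (moduleSpecΓFunctor (R := .of K)) _ _ _ _ G.c10 x
  c11 x := comm_gam (moduleSpecΓFunctor (R := .of K)) _ _ _ _ G.c11 x

lemma dd_grid (G : DGrid (Spec (.of K)).Modules (Coh (Spec (.of K)))) :
    dd (G.row 0) * dd (G.row 2) * dd (G.col 1) = dd (G.col 0) * dd (G.col 2) * dd (G.row 1) := by
  have : ∀ i j, Module.Finite K ((moduleSpecΓFunctor (R := .of K)).obj (G.X i j) : Type u) :=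
    fun i j => finite_gamma (R := .of K) (G.hX i j)
  exact grid_relation (G.top.gam fun i j => (G.hX i j).1) (G.bot.gam fun i j => (G.hX i j).1)

lemma dd_self (l : DSES (Spec (.of K)).Modules (Coh (Spec (.of K)))) (h : l.top = l.bot) :
    dd l = 1 := by
  have h1 : Module.Finite K ((moduleSpecΓFunctor (R := .of K)).obj l.A : Type u) :=
    finite_gamma (R := .of K) l.hA
  have h2 : Module.Finite K ((moduleSpecΓFunctor (R := .of K)).obj l.D : Type u) :=
    finite_gamma (R := .of K) l.hD
  rw [dd, h]
  exact D_self _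

/-- the determinant as a homomorphism on `K₁` -/
noncomputable def detHom : K₁ (Spec (.of K)).Modules (Coh (Spec (.of K))) →+ Additive Kˣ :=
  QuotientAddGroup.lift _ (FreeAbelianGroup.lift fun l => Additive.ofMul (dd l)) <| by
    rw [AddSubgroup.closure_le]
    rintro x (⟨l, hl, rfl⟩ | ⟨G, rfl⟩)
    · rw [SetLike.mem_coe, AddMonoidHom.mem_ker, FreeAbelianGroup.lift_apply_of, dd_self l hl]
      rfl
    · rw [SetLike.mem_coe, AddMonoidHom.mem_ker, map_sub, map_add, map_add, map_sub, map_sub,
        FreeAbelianGroup.lift_apply_of, FreeAbelianGroup.lift_apply_of,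
        FreeAbelianGroup.lift_apply_of, FreeAbelianGroup.lift_apply_of,
        FreeAbelianGroup.lift_apply_of, FreeAbelianGroup.lift_apply_of, sub_eq_zero]
      have h := congrArg Additive.ofMul (dd_grid G)
      simp only [ofMul_mul] at h
      rw [sub_add_eq_add_sub, sub_add_eq_add_sub, sub_eq_sub_iff_add_eq_add, h]

lemma detHom_mk (l : DSES (Spec (.of K)).Modules (Coh (Spec (.of K)))) :
    detHom (K₁.mk l) = Additive.ofMul (dd l) := by
  change (FreeAbelianGroup.lift fun l => Additive.ofMul (dd l)) (FreeAbelianGroup.of l) = _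
  rw [FreeAbelianGroup.lift_apply_of]

end Det

end Pool.Agent.Helper49.KT
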