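import Pool.Agent.Helper49.KT.Bridge2

/-!
# Global sections of pullbacks to the generic point
-/

namespace Pool.Agent.Helper49.KT

open CategoryTheory Limits AlgebraicGeometry Function TensorProduct

universe u

section Abs

variable {A B C E : Type*} [Category A] [Category B] [Category C] [Category E]
  (ΓA : A ⥤ B) (tA : B ⥤ A) (ext : B ⥤ C) (pb : A ⥤ E) (tK : C ⥤ E) (ΓK : E ⥤ C)
  (un : 𝟭 C ⟶ tK ⋙ ΓK) (p : ext ⋙ tK ⟶ tA ⋙ pb) (c : ΓA ⋙ tA ⟶ 𝟭 A)

/-- an abstract comparison map -/
def absCmp (M : A) : ext.obj (ΓA.obj M) ⟶ ΓK.obj (pb.obj M) :=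
  un.app (ext.obj (ΓA.obj M)) ≫ ΓK.map (p.app (ΓA.obj M)) ≫ ΓK.map (pb.map (c.app M))

lemma absCmp_naturality {M N : A} (g : M ⟶ N) :
    ext.map (ΓA.map g) ≫ absCmp ΓA tA ext pb tK ΓK un p c N =
      absCmp ΓA tA ext pb tK ΓK un p c M ≫ ΓK.map (pb.map g) := by
  have h1 : ext.map (ΓA.map g) ≫ un.app _ = un.app _ ≫ ΓK.map (tK.map (ext.map (ΓA.map g))) :=
    un.naturality (ext.map (ΓA.map g))
  have h2 : ΓK.map (tK.map (ext.map (ΓA.map g))) ≫ ΓK.map (p.app (ΓA.obj N)) =
      ΓK.map (p.app (ΓA.obj M)) ≫ ΓK.map (pb.map (tA.map (ΓA.map g))) := by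
    rw [← ΓK.map_comp, ← ΓK.map_comp]
    exact congrArg ΓK.map (p.naturality (ΓA.map g))
  have h3 : ΓK.map (pb.map (tA.map (ΓA.map g))) ≫ ΓK.map (pb.map (c.app N)) =
      ΓK.map (pb.map (c.app M)) ≫ ΓK.map (pb.map g) := by
    rw [← ΓK.map_comp, ← ΓK.map_comp, ← pb.map_comp, ← pb.map_comp]
    exact congrArg (fun h => ΓK.map (pb.map h)) (c.naturality g)
  unfold absCmp
  rw [reassoc_of% h1, reassoc_of% h2, h3]
  simp only [Category.assoc]

lemma absCmp_isIso (M : A) [IsIso (un.app (ext.obj (ΓA.obj M)))] [IsIso (p.app (ΓA.obj M))]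
    [IsIso (c.app M)] : IsIso (absCmp ΓA tA ext pb tK ΓK un p c M) := by
  unfold absCmp
  infer_instance

end Abs

section Cmp

variable {R S : CommRingCat.{u}} (φ : R ⟶ S)

/-- the comparison map from the base change of the global sections to the global sections of the
pullback -/
noncomputable def cmp (M : (Spec (.of R)).Modules) :
    (ModuleCat.extendScalars φ.hom).obj ((moduleSpecΓFunctor (R := R)).obj M) ⟶
      (moduleSpecΓFunctor (R := S)).obj ((Scheme.Modules.pullback (Spec.map φ)).obj M) :=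
  absCmp (moduleSpecΓFunctor (R := R)) (tilde.functor R) (ModuleCat.extendScalars φ.hom)
    (Scheme.Modules.pullback (Spec.map φ)) (tilde.functor S) (moduleSpecΓFunctor (R := S))
    (tilde.toTildeΓNatIso (R := S)).hom (pullTilde φ).inv
    (Scheme.Modules.fromTildeΓNatTrans (R := R)) M

lemma cmp_naturality {M N : (Spec (.of R)).Modules} (g : M ⟶ N) :
    (ModuleCat.extendScalars φ.hom).map ((moduleSpecΓFunctor (R := R)).map g) ≫ cmp φ N =
      cmp φ M ≫ (moduleSpecΓFunctor (R := S)).map
        ((Scheme.Modules.pullback (Spec.map φ)).map g) :=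
  absCmp_naturality _ _ _ _ _ _ _ _ _ g

lemma cmp_isIso (M : (Spec (.of R)).Modules) [M.IsQuasicoherent] : IsIso (cmp φ M) := by
  have i1 : IsIso ((tilde.toTildeΓNatIso (R := S)).hom.app
    ((ModuleCat.extendScalars φ.hom).obj ((moduleSpecΓFunctor (R := R)).obj M))) := inferInstance
  have i2 : IsIso ((pullTilde φ).inv.app ((moduleSpecΓFunctor (R := R)).obj M)) := inferInstance
  have i3 : IsIso ((Scheme.Modules.fromTildeΓNatTrans (R := R)).app M) := inferInstance
  exact @absCmp_isIso _ _ _ _ _ _ _ _ _ _ _ _ _ _ _ _ _ M i1 i2 i3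

end Cmp

section Image

variable {A K : Type u} [CommRing A] [Field K] [Algebra A K]

/-- the global sections of a sheaf that is isomorphic to a pullback -/
noncomputable def secEquiv {X : (Spec (.of K)).Modules} {M : (Spec (.of A)).Modules}
    (hM : M.IsQuasicoherent)
    (e : X ≅ (Scheme.Modules.pullback (Spec.map (CommRingCat.ofHom (algebraMap A K)))).obj M) :
    ((moduleSpecΓFunctor (R := .of K)).obj X : Type u) ≃ₗ[K]
      (K ⊗[A] ((moduleSpecΓFunctor (R := .of A)).obj M : Type u)) :=
  haveI := cmp_isIso (CommRingCat.ofHom (algebraMap A K)) M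
  ((moduleSpecΓFunctor (R := .of K)).mapIso e ≪≫
    (asIso (cmp (CommRingCat.ofHom (algebraMap A K)) M)).symm).toLinearEquiv.trans
    (extEquiv ((moduleSpecΓFunctor (R := .of A)).obj M))

lemma secEquiv_naturality {X Y : (Spec (.of K)).Modules} {M N : (Spec (.of A)).Modules}
    (hM : M.IsQuasicoherent) (hN : N.IsQuasicoherent)
    (eX : X ≅ (Scheme.Modules.pullback (Spec.map (CommRingCat.ofHom (algebraMap A K)))).obj M)
    (eY : Y ≅ (Scheme.Modules.pullback (Spec.map (CommRingCat.ofHom (algebraMap A K)))).obj N)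
    (f : X ⟶ Y) (g : M ⟶ N)
    (h : f ≫ eY.hom = eX.hom ≫ (Scheme.Modules.pullback
      (Spec.map (CommRingCat.ofHom (algebraMap A K)))).map g)
    (x : (moduleSpecΓFunctor (R := .of K)).obj X) :
    secEquiv hN eY (((moduleSpecΓFunctor (R := .of K)).map f).hom x) =
      ((moduleSpecΓFunctor (R := .of A)).map g).hom.baseChange K (secEquiv hM eX x) := by
  have i1 := cmp_isIso (CommRingCat.ofHom (algebraMap A K)) M
  have i2 := cmp_isIso (CommRingCat.ofHom (algebraMap A K)) N
  have h1 : (moduleSpecΓFunctor (R := .of K)).map f ≫ (moduleSpecΓFunctor (R := .of K)).map eY.hom ≫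
      inv (cmp (CommRingCat.ofHom (algebraMap A K)) N) =
      (moduleSpecΓFunctor (R := .of K)).map eX.hom ≫
        inv (cmp (CommRingCat.ofHom (algebraMap A K)) M) ≫
      (ModuleCat.extendScalars (CommRingCat.ofHom (algebraMap A K)).hom).map
        ((moduleSpecΓFunctor (R := .of A)).map g) := by
    have h2 := cmp_naturality (CommRingCat.ofHom (algebraMap A K)) g
    have h3 : inv (cmp (CommRingCat.ofHom (algebraMap A K)) M) ≫
        (ModuleCat.extendScalars (CommRingCat.ofHom (algebraMap A K)).hom).map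
          ((moduleSpecΓFunctor (R := .of A)).map g) =
        (moduleSpecΓFunctor (R := .of K)).map ((Scheme.Modules.pullback
          (Spec.map (CommRingCat.ofHom (algebraMap A K)))).map g) ≫
          inv (cmp (CommRingCat.ofHom (algebraMap A K)) N) := by
      rw [IsIso.inv_comp_eq, ← Category.assoc, IsIso.eq_comp_inv]
      exact h2
    rw [h3, ← Category.assoc, ← Category.assoc, ← Functor.map_comp, ← Functor.map_comp, h]
  have h4 := congrArg (fun k => k.hom x) h1
  have h5 := extEquiv_naturality (S := K) ((moduleSpecΓFunctor (R := .of A)).map g)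
    ((inv (cmp (CommRingCat.ofHom (algebraMap A K)) M)).hom
      (((moduleSpecΓFunctor (R := .of K)).map eX.hom).hom x))
  refine Eq.trans ?_ h5
  exact congrArg (extEquiv ((moduleSpecΓFunctor (R := .of A)).obj N)) h4

variable [Module.Flat A K]

/-- the determinant of a pulled back double short exact sequence -/
theorem dd_image (l : DSES (Spec (.of K)).Modules (Coh (Spec (.of K))))
    (l' : DSES (Spec (.of A)).Modules (Coh (Spec (.of A))))
    (h : l.IsImage (Scheme.Modules.pullback
      (Spec.map (CommRingCat.ofHom (algebraMap A K)))) l') :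
    dd l = D ((l'.top.gam (R := .of A) l'.hB.1 l'.hD.1).bc K)
      ((l'.bot.gam (R := .of A) l'.hB.1 l'.hD.1).bc K) := by
  obtain ⟨eA, eB, eD, ⟨ht1, ht2⟩, ⟨hb1, hb2⟩⟩ := h
  have i1 : Module.Finite K ((moduleSpecΓFunctor (R := .of K)).obj l.A : Type u) :=
    finite_gamma (R := .of K) l.hA
  have i2 : Module.Finite K ((moduleSpecΓFunctor (R := .of K)).obj l.D : Type u) :=
    finite_gamma (R := .of K) l.hD
  have j1 : Module.Finite A ((moduleSpecΓFunctor (R := .of A)).obj l'.A : Type u) :=
    finite_gamma (R := .of A) l'.hA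
  have j2 : Module.Finite A ((moduleSpecΓFunctor (R := .of A)).obj l'.D : Type u) :=
    finite_gamma (R := .of A) l'.hD
  exact D_iso (secEquiv l'.hA.1 eA) (secEquiv l'.hB.1 eB) (secEquiv l'.hD.1 eD)
    (secEquiv_naturality l'.hA.1 l'.hB.1 eA eB _ _ ht1)
    (secEquiv_naturality l'.hB.1 l'.hD.1 eB eD _ _ ht2)
    (secEquiv_naturality l'.hA.1 l'.hB.1 eA eB _ _ hb1)
    (secEquiv_naturality l'.hB.1 l'.hD.1 eB eD _ _ hb2)

/-- over a principal ideal domain the determinant is a unit -/
theorem dd_integral [IsDomain A] [IsPrincipalIdealRing A]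
    (l : DSES (Spec (.of K)).Modules (Coh (Spec (.of K))))
    (l' : DSES (Spec (.of A)).Modules (Coh (Spec (.of A))))
    (h : l.IsImage (Scheme.Modules.pullback
      (Spec.map (CommRingCat.ofHom (algebraMap A K)))) l') :
    ∃ u : Aˣ, dd l = Units.map (algebraMap A K).toMonoidHom u := by
  have j1 : Module.Finite A ((moduleSpecΓFunctor (R := .of A)).obj l'.A : Type u) :=
    finite_gamma (R := .of A) l'.hA
  have j2 : Module.Finite A ((moduleSpecΓFunctor (R := .of A)).obj l'.B : Type u) :=
    finite_gamma (R := .of A) l'.hB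
  have j3 : Module.Finite A ((moduleSpecΓFunctor (R := .of A)).obj l'.D : Type u) :=
    finite_gamma (R := .of A) l'.hD
  rw [dd_image l l' h]
  exact D_integral K (l'.top.gam (R := .of A) l'.hB.1 l'.hD.1)
    (l'.bot.gam (R := .of A) l'.hB.1 l'.hD.1)

end Image

end Pool.Agent.Helper49.KT
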