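import Pool.Agent.Helper49.KT.Bridge3

/-!
# Coherence of the sheaf attached to a finitely generated module
-/

namespace Pool.Agent.Helper49.KT

open CategoryTheory Limits AlgebraicGeometry Function TensorProduct

universe u

section Finite

lemma finite_of_iso {X : Scheme.{u}} {M N : X.Modules} (e : M ≅ N) (U : X.Opens)
    (h : Module.Finite Γ(X, U) Γ(M, U)) : Module.Finite Γ(X, U) Γ(N, U) := by
  let L : Γ(M, U) →ₗ[Γ(X, U)] Γ(N, U) :=
    { toFun := fun x => e.hom.app U x
      map_add' := fun x y => map_add _ x y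
      map_smul' := fun r x => Scheme.Modules.Hom.app_smul e.hom r x }
  refine Module.Finite.of_surjective L fun y => ⟨e.inv.app U y, ?_⟩
  change e.hom.app U (e.inv.app U y) = y
  have h1 : e.inv.app U ≫ e.hom.app U = 𝟙 _ := by
    rw [← Scheme.Modules.Hom.comp_app, e.inv_hom_id, Scheme.Modules.Hom.id_app]
  exact congrArg (fun k => k.hom y) h1

lemma finite_image {X Y : Scheme.{u}} (f : Y ⟶ X) [IsOpenImmersion f] (M : X.Modules)
    (V : Y.Opens) (h : Module.Finite Γ(Y, V) Γ(M.restrict f, V)) :
    Module.Finite Γ(X, f ''ᵁ V) Γ(M, f ''ᵁ V) := by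
  let L : Γ(M.restrict f, V) →ₛₗ[(f.appIso V).inv.hom] Γ(M, f ''ᵁ V) :=
    { toFun := fun x => (M.restrictAppIso f V).hom x
      map_add' := fun x y => map_add _ x y
      map_smul' := fun r x => Scheme.Modules.smul_restrictAppIso_hom_apply f M V r x }
  exact Module.Finite.of_surjective L fun y => ⟨(M.restrictAppIso f V).inv y, rfl⟩

variable {R : CommRingCat.{u}}

lemma finite_tilde_top (N : ModuleCat.{u} R) (h : Module.Finite R N) :
    Module.Finite Γ(Spec (.of R), ⊤) Γ(tilde N, ⊤) := by
  have h1 : Module.Finite R Γ(tilde N, ⊤) :=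
    Module.Finite.of_surjective (tilde.isoTop N).hom.hom
      ((ModuleCat.epi_iff_surjective (tilde.isoTop N).hom).1 inferInstance)
  exact Module.Finite.of_restrictScalars_finite R Γ(Spec (.of R), ⊤) Γ(tilde N, ⊤)

lemma finite_ext {R S : CommRingCat.{u}} (φ : R ⟶ S) (N : ModuleCat.{u} R)
    (h : Module.Finite R N) :
    Module.Finite S ((ModuleCat.extendScalars φ.hom).obj N) := by
  let _ := φ.hom.toAlgebra
  have h1 : Module.Finite S (S ⊗[R] N) := inferInstance
  exact Module.Finite.equiv (extEquiv (R := R) (S := S) N).symm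

/-- the sheaf attached to a finitely generated module is coherent -/
theorem coh_tilde (N : ModuleCat.{u} R) (h : Module.Finite R N) :
    Coh (Spec (.of R)) ((tilde.functor R).obj N) := by
  refine ⟨inferInstance, fun U hU => ?_⟩
  have key : Module.Finite Γ(Spec (.of R), hU.fromSpec ''ᵁ ⊤)
      Γ((tilde.functor R).obj N, hU.fromSpec ''ᵁ ⊤) := by
    apply finite_image
    obtain ⟨φ, hφ⟩ : ∃ φ : (CommRingCat.of R) ⟶ Γ(Spec (.of R), U), hU.fromSpec = Spec.map φ :=
      ⟨Spec.preimage hU.fromSpec, (Spec.map_preimage _).symm⟩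
    have e : ((tilde.functor R).obj N).restrict hU.fromSpec ≅
        tilde ((ModuleCat.extendScalars φ.hom).obj N) :=
      (Scheme.Modules.restrictFunctorIsoPullback hU.fromSpec).app _ ≪≫
        (Scheme.Modules.pullbackCongr hφ).app _ ≪≫ (pullTilde φ).app N
    exact finite_of_iso e.symm _ (finite_tilde_top (R := Γ(Spec (.of R), U)) _ (finite_ext φ N h))
  have h2 : hU.fromSpec ''ᵁ ⊤ = U := by
    rw [Scheme.Hom.image_top_eq_opensRange, hU.opensRange_fromSpec]
  rw [h2] at key
  exact key

end Finite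

section TildeDSES

/-- a short exact short complex as a short exact sequence with given terms -/
def SES.ofSC {C : Type*} [Category C] [Abelian C] (S : ShortComplex C) (h : S.ShortExact) :
    SES S.X₁ S.X₂ S.X₃ := ⟨S.f, S.g, S.zero, h⟩

variable {R : CommRingCat.{u}} {N₁ N₂ N₃ : ModuleCat.{u} R}

/-- a short exact sequence as a short complex -/
abbrev LSES.toSC (s : LSES R N₁ N₂ N₃) : ShortComplex (ModuleCat.{u} R) :=
  ShortComplex.mk (ModuleCat.ofHom s.f) (ModuleCat.ofHom s.g) <| by
    rw [← ModuleCat.ofHom_comp, s.ex.linearMap_comp_eq_zero]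
    rfl

lemma LSES.toSC_shortExact (s : LSES R N₁ N₂ N₃) : s.toSC.ShortExact :=
  ShortComplex.ShortExact.mk'
    ((ShortComplex.ShortExact.moduleCat_exact_iff_function_exact s.toSC).2 s.ex)
    ((ModuleCat.mono_iff_injective _).2 s.inj) ((ModuleCat.epi_iff_surjective _).2 s.surj)

/-- the short exact sequence of sheaves attached to a short exact sequence of modules -/
noncomputable def LSES.tilde (s : LSES R N₁ N₂ N₃) :
    SES ((tilde.functor R).obj N₁) ((tilde.functor R).obj N₂) ((tilde.functor R).obj N₃) :=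
  SES.ofSC (s.toSC.map (tilde.functor R)) (shortExact_tilde s.toSC s.toSC_shortExact)

/-- the double short exact sequence of sheaves attached to two short exact sequences -/
noncomputable def tildeDSES (h₁ : Module.Finite R N₁) (h₂ : Module.Finite R N₂)
    (h₃ : Module.Finite R N₃) (s t : LSES R N₁ N₂ N₃) :
    DSES (Spec (.of R)).Modules (Coh (Spec (.of R))) where
  A := (tilde.functor R).obj N₁
  B := (tilde.functor R).obj N₂
  D := (tilde.functor R).obj N₃
  hA := coh_tilde N₁ h₁
  hB := coh_tilde N₂ h₂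
  hD := coh_tilde N₃ h₃
  top := s.tilde
  bot := t.tilde

lemma isoTop_naturality {M N : ModuleCat.{u} R} (f : M ⟶ N) (x : M) :
    ((moduleSpecΓFunctor (R := R)).map ((tilde.functor R).map f)).hom
      (((tilde.toTildeΓNatIso (R := R)).app M).toLinearEquiv x) =
      ((tilde.toTildeΓNatIso (R := R)).app N).toLinearEquiv (f.hom x) := by
  have h := (tilde.toTildeΓNatIso (R := R)).hom.naturality f
  exact (congrArg (fun k => k.hom x) h).symm

end TildeDSES

section Field

variable {K : Type u} [Field K] {N₁ N₂ N₃ : ModuleCat.{u} K}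

/-- the determinant of the double short exact sequence attached to vector spaces -/
theorem dd_tilde (h₁ : Module.Finite K N₁) (h₂ : Module.Finite K N₂) (h₃ : Module.Finite K N₃)
    (s t : LSES K N₁ N₂ N₃) :
    dd (tildeDSES (R := .of K) (N₁ := N₁) (N₂ := N₂) (N₃ := N₃) h₁ h₂ h₃ s t) = D s t := by
  have i1 : Module.Finite K ((tilde.functor (.of K) ⋙ moduleSpecΓFunctor).obj N₁ : Type u) :=
    finite_gamma (R := .of K)
    (tildeDSES (R := .of K) (N₁ := N₁) (N₂ := N₂) (N₃ := N₃) h₁ h₂ h₃ s t).hA
  have i2 : Module.Finite K ((tilde.functor (.of K) ⋙ moduleSpecΓFunctor).obj N₃ : Type u) :=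
    finite_gamma (R := .of K)
    (tildeDSES (R := .of K) (N₁ := N₁) (N₂ := N₂) (N₃ := N₃) h₁ h₂ h₃ s t).hD
  refine (D_iso (s := s) (t := t) ((tilde.toTildeΓNatIso (R := .of K)).app N₁).toLinearEquiv
    ((tilde.toTildeΓNatIso (R := .of K)).app N₂).toLinearEquiv
    ((tilde.toTildeΓNatIso (R := .of K)).app N₃).toLinearEquiv ?_ ?_ ?_ ?_).symm
  · exact fun x => (isoTop_naturality (R := .of K) (ModuleCat.ofHom s.f) x).symm
  · exact fun x => (isoTop_naturality (R := .of K) (ModuleCat.ofHom s.g) x).symm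
  · exact fun x => (isoTop_naturality (R := .of K) (ModuleCat.ofHom t.f) x).symm
  · exact fun x => (isoTop_naturality (R := .of K) (ModuleCat.ofHom t.g) x).symm

end Field

end Pool.Agent.Helper49.KT
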