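import Pool.Agent.Helper49.KT.Bridge4

/-!
# The sheaf attached to a base change
-/

namespace Pool.Agent.Helper49.KT

open CategoryTheory Limits AlgebraicGeometry Function TensorProduct

universe u

section Image

variable {A K : Type u} [CommRing A] [Field K] [Algebra A K]

/-- the comparison of base change with extension of scalars as an isomorphism -/
noncomputable def extIso (N : ModuleCat.{u} A) :
    ModuleCat.of K (K ⊗[A] N) ≅
      (ModuleCat.extendScalars (CommRingCat.ofHom (algebraMap A K)).hom).obj N :=
  LinearEquiv.toModuleIso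
    (X₂ := (ModuleCat.extendScalars (CommRingCat.ofHom (algebraMap A K)).hom).obj N)
    (extEquiv (S := K) N).symm

lemma extIso_naturality {M N : ModuleCat.{u} A} (f : M ⟶ N) :
    ModuleCat.ofHom (f.hom.baseChange K) ≫ (extIso (K := K) N).hom =
      (extIso (K := K) M).hom ≫
      (ModuleCat.extendScalars (CommRingCat.ofHom (algebraMap A K)).hom).map f := by
  rw [← Iso.inv_comp_eq, ← Category.assoc, ← Iso.eq_comp_inv]
  apply ModuleCat.hom_ext
  apply LinearMap.ext
  intro x
  exact (extEquiv_naturality (S := K) f x).symm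

/-- the sheaf attached to a base change is the pullback -/
noncomputable def tildeBC (N : ModuleCat.{u} (CommRingCat.of A)) :
    (tilde.functor (.of K)).obj (ModuleCat.of K (K ⊗[A] N)) ≅
      (Scheme.Modules.pullback (Spec.map (CommRingCat.ofHom (algebraMap A K)))).obj
        ((tilde.functor (.of A)).obj N) :=
  (tilde.functor (.of K)).mapIso (extIso (K := K) N) ≪≫
    (pullTilde (CommRingCat.ofHom (algebraMap A K))).symm.app N

lemma tildeBC_naturality {M N : ModuleCat.{u} (CommRingCat.of A)} (f : M ⟶ N) :
    (tilde.functor (.of K)).map (ModuleCat.ofHom (f.hom.baseChange K)) ≫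
      (tildeBC (A := A) (K := K) N).hom =
      (tildeBC (A := A) (K := K) M).hom ≫
      (Scheme.Modules.pullback (Spec.map (CommRingCat.ofHom (algebraMap A K)))).map
        ((tilde.functor (.of A)).map f) := by
  have h1 := congrArg (tilde.functor (.of K)).map (extIso_naturality (K := K) f)
  have h2 := (pullTilde (CommRingCat.ofHom (algebraMap A K))).inv.naturality f
  rw [Functor.map_comp, Functor.map_comp] at h1
  change _ ≫ ((tilde.functor (.of K)).map (extIso (K := K) N).hom ≫
    (pullTilde (CommRingCat.ofHom (algebraMap A K))).inv.app N) =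
    ((tilde.functor (.of K)).map (extIso (K := K) M).hom ≫
    (pullTilde (CommRingCat.ofHom (algebraMap A K))).inv.app M) ≫ _
  rw [← Category.assoc, h1, Category.assoc, Category.assoc]
  exact congrArg _ h2

variable [Module.Flat A K] {N₁ N₂ N₃ : ModuleCat.{u} (CommRingCat.of A)}

/-- the base change of a double short exact sequence gives the pullback of the double short
exact sequence of sheaves -/
theorem tilde_isImage (h₁ : Module.Finite A N₁) (h₂ : Module.Finite A N₂)
    (h₃ : Module.Finite A N₃) (s t : LSES A N₁ N₂ N₃) :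
    (tildeDSES (R := .of K) (N₁ := .of K (K ⊗[A] N₁)) (N₂ := .of K (K ⊗[A] N₂))
      (N₃ := .of K (K ⊗[A] N₃)) (Module.Finite.base_change A K N₁)
      (Module.Finite.base_change A K N₂) (Module.Finite.base_change A K N₃)
      (s.bc K) (t.bc K)).IsImage
      (Scheme.Modules.pullback (Spec.map (CommRingCat.ofHom (algebraMap A K))))
      (tildeDSES (R := .of A) h₁ h₂ h₃ s t) :=
  ⟨tildeBC N₁, tildeBC N₂, tildeBC N₃,
    ⟨tildeBC_naturality (ModuleCat.ofHom s.f), tildeBC_naturality (ModuleCat.ofHom s.g)⟩,
    ⟨tildeBC_naturality (ModuleCat.ofHom t.f), tildeBC_naturality (ModuleCat.ofHom t.g)⟩⟩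

end Image

end Pool.Agent.Helper49.KT
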