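import Mathlib

/-!
# Determinants of double short exact sequences of vector spaces
-/

namespace Pool.Agent.Helper49.KT

open Function

section Tri

variable {R U V W : Type*} [CommRing R] [AddCommGroup U] [Module R U] [AddCommGroup V] [Module R V]
  [AddCommGroup W] [Module R W]

/-- splitting of a short exact sequence by a section -/
noncomputable def spl (f : U →ₗ[R] V) (g : V →ₗ[R] W) (s : W →ₗ[R] V) (hf : Injective f)
    (hfg : Exact f g) (hs : g ∘ₗ s = LinearMap.id) : (U × W) ≃ₗ[R] V :=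
  LinearEquiv.ofBijective (f.coprod s) <| by
    have hs' : ∀ w, g (s w) = w := fun w => LinearMap.congr_fun hs w
    have hgf : ∀ u, g (f u) = 0 := fun u => hfg.apply_apply_eq_zero u
    constructor
    · rw [← LinearMap.ker_eq_bot, LinearMap.ker_eq_bot']
      rintro ⟨u, w⟩ h
      have h1 : w = 0 := by
        have := congrArg g h
        simpa [hs', hgf] using this
      subst h1
      have h2 : f u = 0 := by simpa using h
      have : u = 0 := hf (by simpa using h2)
      simp [this]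
    · intro v
      obtain ⟨u, hu⟩ := (hfg (v - s (g v))).1 (by simp [hs'])
      exact ⟨(u, g v), by simp [hu]⟩

@[simp] lemma spl_apply (f : U →ₗ[R] V) (g : V →ₗ[R] W) (s : W →ₗ[R] V) (hf : Injective f)
    (hfg : Exact f g) (hs : g ∘ₗ s = LinearMap.id) (x : U × W) :
    spl f g s hf hfg hs x = f x.1 + s x.2 := rfl

lemma det_tri_prod [Module.Free R U] [Module.Finite R U] [Module.Free R W] [Module.Finite R W]
    (α : U →ₗ[R] U) (γ : W →ₗ[R] W) (β : (U × W) →ₗ[R] (U × W))
    (h1 : ∀ u, β (u, 0) = (α u, 0)) (h2 : ∀ x, (β x).2 = γ x.2) :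
    LinearMap.det β = LinearMap.det α * LinearMap.det γ := by
  classical
  let b := Module.Free.chooseBasis R U
  let b' := Module.Free.chooseBasis R W
  have key : LinearMap.toMatrix (b.prod b') (b.prod b') β = Matrix.fromBlocks
      (LinearMap.toMatrix b b α)
      (LinearMap.toMatrix b' b (LinearMap.fst R U W ∘ₗ β ∘ₗ LinearMap.inr R U W)) 0
      (LinearMap.toMatrix b' b' γ) := by
    ext i j
    rcases i with i | i <;> rcases j with j | j
    · simp [LinearMap.toMatrix_apply, h1]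
    · simp [LinearMap.toMatrix_apply]
    · simp [LinearMap.toMatrix_apply, h1]
    · simp [LinearMap.toMatrix_apply, h2]
  rw [← LinearMap.det_toMatrix (b.prod b'), key, Matrix.det_fromBlocks_zero₂₁,
    LinearMap.det_toMatrix, LinearMap.det_toMatrix]

/-- The determinant is multiplicative in short exact sequences. -/
lemma det_tri [Module.Free R U] [Module.Finite R U] [Module.Free R W] [Module.Finite R W]
    (f : U →ₗ[R] V) (g : V →ₗ[R] W) (hf : Injective f) (hfg : Exact f g) (hg : Surjective g)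
    (α : U →ₗ[R] U) (β : V →ₗ[R] V) (γ : W →ₗ[R] W)
    (h1 : β ∘ₗ f = f ∘ₗ α) (h2 : g ∘ₗ β = γ ∘ₗ g) :
    LinearMap.det β = LinearMap.det α * LinearMap.det γ := by
  obtain ⟨s, hs⟩ := Module.projective_lifting_property g LinearMap.id hg
  let e := spl f g s hf hfg hs
  have hs' : ∀ w, g (s w) = w := fun w => LinearMap.congr_fun hs w
  have hgf : ∀ u, g (f u) = 0 := fun u => hfg.apply_apply_eq_zero u
  have := det_tri_prod α γ (e.symm.toLinearMap ∘ₗ β ∘ₗ e.toLinearMap) ?_ ?_
  · rw [← this]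
    have h3 := LinearMap.det_conj β e.symm
    rw [← h3]
    rfl
  · intro u
    apply e.injective
    have : β (f u) = f (α u) := LinearMap.congr_fun h1 u
    simp [e, this]
  · intro x
    have h4 : ∀ y : U × W, g (e y) = y.2 := by
      intro y
      simp [e, hs', hgf]
    have h5 : g (β (e x)) = γ (g (e x)) := LinearMap.congr_fun h2 (e x)
    have h6 := h4 (e.symm (β (e x)))
    rw [LinearEquiv.apply_symm_apply, h5, h4] at h6
    simpa using h6.symm

end Tri

section Field

variable {K U V W : Type*} [Field K] [AddCommGroup U] [Module K U] [AddCommGroup V] [Module K V]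
  [AddCommGroup W] [Module K W] [Module.Finite K U] [Module.Finite K V] [Module.Finite K W]

/-- `τ` carries the short exact sequence `(f, g)` to the short exact sequence `(f', g')`. -/
def Carries (f : U →ₗ[K] V) (g : V →ₗ[K] W) (f' : U →ₗ[K] V) (g' : V →ₗ[K] W)
    (τ : V ≃ₗ[K] V) : Prop :=
  (∀ u, τ (f u) = f' u) ∧ ∀ v, g' (τ v) = g v

omit [Module.Finite K U] [Module.Finite K V] [Module.Finite K W] in
lemma exists_carries {f : U →ₗ[K] V} {g : V →ₗ[K] W} {f' : U →ₗ[K] V} {g' : V →ₗ[K] W}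
    (hf : Injective f) (hfg : Exact f g) (hg : Surjective g)
    (hf' : Injective f') (hfg' : Exact f' g') (hg' : Surjective g') :
    ∃ τ : V ≃ₗ[K] V, Carries f g f' g' τ := by
  obtain ⟨s, hs⟩ := Module.projective_lifting_property g LinearMap.id hg
  obtain ⟨s', hs'⟩ := Module.projective_lifting_property g' LinearMap.id hg'
  have hs1 : ∀ w, g (s w) = w := fun w => LinearMap.congr_fun hs w
  have hs1' : ∀ w, g' (s' w) = w := fun w => LinearMap.congr_fun hs' w
  have hgf : ∀ u, g (f u) = 0 := fun u => hfg.apply_apply_eq_zero u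
  have hgf' : ∀ u, g' (f' u) = 0 := fun u => hfg'.apply_apply_eq_zero u
  refine ⟨(spl f g s hf hfg hs).symm.trans (spl f' g' s' hf' hfg' hs'), fun u => ?_, fun v => ?_⟩
  · have : (spl f g s hf hfg hs).symm (f u) = (u, 0) := by
      rw [LinearEquiv.symm_apply_eq]; simp
    simp [this]
  · obtain ⟨x, rfl⟩ := (spl f g s hf hfg hs).surjective v
    rw [LinearEquiv.trans_apply, LinearEquiv.symm_apply_apply]
    simp [hs1, hs1', hgf, hgf']

omit [Module.Finite K V] in
lemma det_carries_eq {f : U →ₗ[K] V} {g : V →ₗ[K] W} {f' : U →ₗ[K] V} {g' : V →ₗ[K] W}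
    (hf : Injective f) (hfg : Exact f g) (hg : Surjective g)
    {τ τ' : V ≃ₗ[K] V} (h : Carries f g f' g' τ) (h' : Carries f g f' g' τ') :
    LinearMap.det (τ : V →ₗ[K] V) = LinearMap.det (τ' : V →ₗ[K] V) := by
  have key := det_tri f g hf hfg hg LinearMap.id ((τ'.symm : V →ₗ[K] V) ∘ₗ (τ : V →ₗ[K] V))
    LinearMap.id ?_ ?_
  · have h2 : (τ : V →ₗ[K] V) = (τ' : V →ₗ[K] V) ∘ₗ ((τ'.symm : V →ₗ[K] V) ∘ₗ (τ : V →ₗ[K] V)) := by
      ext v; simp
    rw [h2, LinearMap.det_comp, key]
    simp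
  · ext u
    simp [h.1, ← h'.1]
  · ext v
    have h3 := h'.2 (τ'.symm (τ v))
    rw [LinearEquiv.apply_symm_apply, h.2] at h3
    simp [h3]

end Field

/-- A short exact sequence of `K`-modules with given terms. -/
structure LSES (K A B C : Type*) [CommRing K] [AddCommGroup A] [Module K A] [AddCommGroup B]
    [Module K B] [AddCommGroup C] [Module K C] where
  f : A →ₗ[K] B
  g : B →ₗ[K] C
  inj : Injective f
  ex : Exact f g
  surj : Surjective g

section D

variable {K A B C : Type*} [Field K] [AddCommGroup A] [Module K A] [AddCommGroup B]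
    [Module K B] [AddCommGroup C] [Module K C]

/-- the determinant of a double short exact sequence of vector spaces -/
noncomputable def D (s t : LSES K A B C) : Kˣ :=
  LinearEquiv.det (exists_carries s.inj s.ex s.surj t.inj t.ex t.surj).choose

lemma D_spec [Module.Finite K A] [Module.Finite K C] (s t : LSES K A B C) (τ : B ≃ₗ[K] B)
    (h : Carries s.f s.g t.f t.g τ) : D s t = LinearEquiv.det τ := by
  apply Units.ext
  rw [D, LinearEquiv.coe_det, LinearEquiv.coe_det]
  exact det_carries_eq s.inj s.ex s.surj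
    (exists_carries s.inj s.ex s.surj t.inj t.ex t.surj).choose_spec h

lemma D_self [Module.Finite K A] [Module.Finite K C] (s : LSES K A B C) : D s s = 1 := by
  rw [D_spec s s (LinearEquiv.refl K B) ⟨fun _ => rfl, fun _ => rfl⟩]
  simp

lemma det_eq_D_mul [Module.Finite K A] [Module.Finite K C] (s t : LSES K A B C)
    (T : B ≃ₗ[K] B) (α : A ≃ₗ[K] A) (γ : C ≃ₗ[K] C) (h1 : ∀ a, T (s.f a) = t.f (α a))
    (h2 : ∀ b, t.g (T b) = γ (s.g b)) :
    LinearEquiv.det T = D s t * (LinearEquiv.det α * LinearEquiv.det γ) := by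
  obtain ⟨τ, hτ⟩ := exists_carries s.inj s.ex s.surj t.inj t.ex t.surj
  rw [D_spec s t τ hτ]
  have hτ' : ∀ b, s.g (τ.symm b) = t.g b := by
    intro b
    have := hτ.2 (τ.symm b)
    rw [LinearEquiv.apply_symm_apply] at this
    exact this.symm
  have key := det_tri s.f s.g s.inj s.ex s.surj (α : A →ₗ[K] A)
    ((τ.symm : B →ₗ[K] B) ∘ₗ (T : B →ₗ[K] B)) (γ : C →ₗ[K] C) ?_ ?_
  · have h3 : (T : B →ₗ[K] B) = (τ : B →ₗ[K] B) ∘ₗ ((τ.symm : B →ₗ[K] B) ∘ₗ (T : B →ₗ[K] B)) := by
      ext b; simp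
    apply Units.ext
    rw [Units.val_mul, Units.val_mul, LinearEquiv.coe_det, LinearEquiv.coe_det,
      LinearEquiv.coe_det, LinearEquiv.coe_det, h3, LinearMap.det_comp, key]
  · ext a
    simp [h1, ← hτ.1]
  · ext b
    simp [hτ', h2]

end D

/-- A commutative diagram with three rows and three columns, all of them short exact. -/
structure LGrid (K : Type*) [CommRing K] (X : Fin 3 → Fin 3 → Type*)
    [∀ i j, AddCommGroup (X i j)] [∀ i j, Module K (X i j)] where
  row : ∀ i, LSES K (X i 0) (X i 1) (X i 2)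
  col : ∀ j, LSES K (X 0 j) (X 1 j) (X 2 j)
  c00 : ∀ x, (col 1).f ((row 0).f x) = (row 1).f ((col 0).f x)
  c01 : ∀ x, (col 2).f ((row 0).g x) = (row 1).g ((col 1).f x)
  c10 : ∀ x, (col 1).g ((row 1).f x) = (row 2).f ((col 0).g x)
  c11 : ∀ x, (col 2).g ((row 1).g x) = (row 2).g ((col 1).g x)

section Grid

variable {K : Type*} [Field K] {X : Fin 3 → Fin 3 → Type*}
    [∀ i j, AddCommGroup (X i j)] [∀ i j, Module K (X i j)] [∀ i j, Module.Finite K (X i j)]

/-- sections of the maps in a grid -/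
structure Sec (G : LGrid K X) where
  w : X 2 0 →ₗ[K] X 1 0
  hw : ∀ x, (G.col 0).g (w x) = x
  v : X 0 2 →ₗ[K] X 0 1
  hv : ∀ x, (G.row 0).g (v x) = x
  u : X 2 2 →ₗ[K] X 1 1
  hu : ∀ x, (G.col 2).g ((G.row 1).g (u x)) = x

omit [∀ i j, Module.Finite K (X i j)] in
lemma exists_sec (G : LGrid K X) : Nonempty (Sec G) := by
  obtain ⟨w, hw⟩ := Module.projective_lifting_property (G.col 0).g LinearMap.id (G.col 0).surj
  obtain ⟨v, hv⟩ := Module.projective_lifting_property (G.row 0).g LinearMap.id (G.row 0).surj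
  obtain ⟨u, hu⟩ := Module.projective_lifting_property ((G.col 2).g ∘ₗ (G.row 1).g)
    LinearMap.id ((G.col 2).surj.comp (G.row 1).surj)
  exact ⟨⟨w, fun x => LinearMap.congr_fun hw x, v, fun x => LinearMap.congr_fun hv x, u,
    fun x => LinearMap.congr_fun hu x⟩⟩

/-- the four corners span the middle term -/
noncomputable def theta (G : LGrid K X) (S : Sec G) :
    (X 0 0 × X 2 0) × (X 0 2 × X 2 2) →ₗ[K] X 1 1 :=
  LinearMap.coprod (LinearMap.coprod ((G.row 1).f ∘ₗ (G.col 0).f) ((G.row 1).f ∘ₗ S.w))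
    (LinearMap.coprod ((G.col 1).f ∘ₗ S.v) S.u)

omit [∀ i j, Module.Finite K (X i j)] in
lemma theta_apply (G : LGrid K X) (S : Sec G) (x : (X 0 0 × X 2 0) × (X 0 2 × X 2 2)) :
    theta G S x = ((G.row 1).f ((G.col 0).f x.1.1) + (G.row 1).f (S.w x.1.2)) +
      ((G.col 1).f (S.v x.2.1) + S.u x.2.2) := rfl

omit [∀ i j, Module.Finite K (X i j)] in
lemma theta_surjective (G : LGrid K X) (S : Sec G) : Surjective (theta G S) := by
  intro x
  set y := (G.col 2).g ((G.row 1).g x) with hy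
  -- the element `x - u y` dies in the corner
  have h1 : (G.row 2).g ((G.col 1).g (x - S.u y)) = 0 := by
    rw [← G.c11]
    simp [S.hu, hy]
  obtain ⟨b, hb⟩ := ((G.row 2).ex _).1 h1
  have h2 : (G.col 1).g (x - S.u y - (G.row 1).f (S.w b)) = 0 := by
    rw [map_sub, G.c10, S.hw, ← hb, sub_self]
  obtain ⟨c, hc⟩ := ((G.col 1).ex _).1 h2
  have h3 : (G.row 0).g (c - S.v ((G.row 0).g c)) = 0 := by
    rw [map_sub, S.hv, sub_self]
  obtain ⟨a, ha⟩ := ((G.row 0).ex _).1 h3
  refine ⟨((a, b), ((G.row 0).g c, y)), ?_⟩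
  rw [theta_apply]
  have h4 : (G.row 1).f ((G.col 0).f a) = (G.col 1).f (c - S.v ((G.row 0).g c)) := by
    rw [← G.c00, ha]
  dsimp only
  rw [h4, map_sub, hc]
  abel

omit [∀ i j, Module.Finite K (X i j)] in
lemma LSES.finrank {A B C : Type*} [AddCommGroup A] [Module K A] [AddCommGroup B]
    [Module K B] [AddCommGroup C] [Module K C] [Module.Finite K A] [Module.Finite K B]
    [Module.Finite K C] (s : LSES K A B C) :
    Module.finrank K B = Module.finrank K A + Module.finrank K C := by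
  obtain ⟨σ, hσ⟩ := Module.projective_lifting_property s.g LinearMap.id s.surj
  rw [← (spl s.f s.g σ s.inj s.ex hσ).finrank_eq, Module.finrank_prod]

lemma theta_bijective (G : LGrid K X) (S : Sec G) : Bijective (theta G S) := by
  refine ⟨?_, theta_surjective G S⟩
  rw [LinearMap.injective_iff_surjective_of_finrank_eq_finrank]
  · exact theta_surjective G S
  · rw [Module.finrank_prod, Module.finrank_prod, Module.finrank_prod, (G.row 1).finrank,
      (G.col 0).finrank, (G.col 2).finrank]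

/-- the equivalence given by `theta` -/
noncomputable def Theta (G : LGrid K X) (S : Sec G) :
    ((X 0 0 × X 2 0) × (X 0 2 × X 2 2)) ≃ₗ[K] X 1 1 :=
  LinearEquiv.ofBijective (theta G S) (theta_bijective G S)

lemma Theta_apply (G : LGrid K X) (S : Sec G) (x : (X 0 0 × X 2 0) × (X 0 2 × X 2 2)) :
    Theta G S x = ((G.row 1).f ((G.col 0).f x.1.1) + (G.row 1).f (S.w x.1.2)) +
      ((G.col 1).f (S.v x.2.1) + S.u x.2.2) := rfl

/-- the carrier of a double short exact sequence defined by two sections -/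
noncomputable def carrier {A B C : Type*} [AddCommGroup A] [Module K A] [AddCommGroup B]
    [Module K B] [AddCommGroup C] [Module K C] (s t : LSES K A B C) (σ : C →ₗ[K] B)
    (hσ : ∀ c, s.g (σ c) = c) (σ' : C →ₗ[K] B) (hσ' : ∀ c, t.g (σ' c) = c) : B ≃ₗ[K] B :=
  (spl s.f s.g σ s.inj s.ex (LinearMap.ext hσ)).symm.trans
    (spl t.f t.g σ' t.inj t.ex (LinearMap.ext hσ'))

omit [∀ i j, Module.Finite K (X i j)] in
lemma carrier_apply {A B C : Type*} [AddCommGroup A] [Module K A] [AddCommGroup B]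
    [Module K B] [AddCommGroup C] [Module K C] (s t : LSES K A B C) (σ : C →ₗ[K] B)
    (hσ : ∀ c, s.g (σ c) = c) (σ' : C →ₗ[K] B) (hσ' : ∀ c, t.g (σ' c) = c) (a : A) (c : C) :
    carrier s t σ hσ σ' hσ' (s.f a + σ c) = t.f a + σ' c := by
  have : s.f a + σ c = spl s.f s.g σ s.inj s.ex (LinearMap.ext hσ) (a, c) := rfl
  rw [carrier, this, LinearEquiv.trans_apply, LinearEquiv.symm_apply_apply]
  rfl

omit [∀ i j, Module.Finite K (X i j)] in
lemma carries_carrier {A B C : Type*} [AddCommGroup A] [Module K A] [AddCommGroup B]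
    [Module K B] [AddCommGroup C] [Module K C] (s t : LSES K A B C) (σ : C →ₗ[K] B)
    (hσ : ∀ c, s.g (σ c) = c) (σ' : C →ₗ[K] B) (hσ' : ∀ c, t.g (σ' c) = c) :
    Carries s.f s.g t.f t.g (carrier s t σ hσ σ' hσ') := by
  refine ⟨fun a => ?_, fun b => ?_⟩
  · simpa using carrier_apply s t σ hσ σ' hσ' a 0
  · obtain ⟨⟨a, c⟩, rfl⟩ := (spl s.f s.g σ s.inj s.ex (LinearMap.ext hσ)).surjective b
    rw [spl_apply, carrier_apply, map_add, map_add, t.ex.apply_apply_eq_zero,
      s.ex.apply_apply_eq_zero, hσ, hσ']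

/-- **The nine term relation.** -/
theorem grid_relation (G G' : LGrid K X) :
    D (G.row 0) (G'.row 0) * D (G.row 2) (G'.row 2) * D (G.col 1) (G'.col 1) =
      D (G.col 0) (G'.col 0) * D (G.col 2) (G'.col 2) * D (G.row 1) (G'.row 1) := by
  obtain ⟨S⟩ := exists_sec G
  obtain ⟨S'⟩ := exists_sec G'
  let T : X 1 1 ≃ₗ[K] X 1 1 := (Theta G S).symm.trans (Theta G' S')
  have hT : ∀ x, T (Theta G S x) = Theta G' S' x := fun x => by
    simp only [T, LinearEquiv.trans_apply, LinearEquiv.symm_apply_apply]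
  -- carriers
  let τc0 := carrier (G.col 0) (G'.col 0) S.w S.hw S'.w S'.hw
  let τr0 := carrier (G.row 0) (G'.row 0) S.v S.hv S'.v S'.hv
  let τc2 := carrier (G.col 2) (G'.col 2) ((G.row 1).g ∘ₗ S.u) S.hu ((G'.row 1).g ∘ₗ S'.u) S'.hu
  let τr2 := carrier (G.row 2) (G'.row 2) ((G.col 1).g ∘ₗ S.u)
    (fun c => by rw [LinearMap.comp_apply, ← G.c11, S.hu]) ((G'.col 1).g ∘ₗ S'.u)
    (fun c => by rw [LinearMap.comp_apply, ← G'.c11, S'.hu])
  have e1 := det_eq_D_mul (G.row 1) (G'.row 1) T τc0 τc2 ?_ ?_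
  · have e2 := det_eq_D_mul (G.col 1) (G'.col 1) T τr0 τr2 ?_ ?_
    · rw [D_spec (G.col 0) (G'.col 0) τc0 (carries_carrier _ _ _ _ _ _),
        D_spec (G.col 2) (G'.col 2) τc2 (carries_carrier _ _ _ _ _ _),
        D_spec (G.row 0) (G'.row 0) τr0 (carries_carrier _ _ _ _ _ _),
        D_spec (G.row 2) (G'.row 2) τr2 (carries_carrier _ _ _ _ _ _)]
      rw [mul_comm, ← e2, e1, mul_comm]
    · intro x
      obtain ⟨⟨a, b⟩, rfl⟩ := (spl (G.row 0).f (G.row 0).g S.v (G.row 0).inj (G.row 0).ex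
        (LinearMap.ext S.hv)).surjective x
      have h1 : (G.col 1).f (spl (G.row 0).f (G.row 0).g S.v (G.row 0).inj (G.row 0).ex
        (LinearMap.ext S.hv) (a, b)) = Theta G S ((a, 0), (b, 0)) := by
        rw [spl_apply, Theta_apply, map_add, G.c00]; simp
      rw [h1, hT, spl_apply]
      dsimp only
      rw [show τr0 ((G.row 0).f a + S.v b) = (G'.row 0).f a + S'.v b from
        carrier_apply _ _ _ _ _ _ _ _, Theta_apply, map_add, G'.c00]
      simp
    · intro y
      obtain ⟨⟨⟨a, b⟩, ⟨c, d⟩⟩, rfl⟩ := (Theta G S).surjective y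
      rw [hT]
      have h1 : (G.col 1).g (Theta G S ((a, b), (c, d))) =
          (G.row 2).f b + ((G.col 1).g ∘ₗ S.u) d := by
        rw [Theta_apply]
        simp only [map_add, G.c10, S.hw, (G.col 0).ex.apply_apply_eq_zero,
          (G.col 1).ex.apply_apply_eq_zero, map_zero, zero_add, LinearMap.comp_apply]
      have h2 : (G'.col 1).g (Theta G' S' ((a, b), (c, d))) =
          (G'.row 2).f b + ((G'.col 1).g ∘ₗ S'.u) d := by
        rw [Theta_apply]
        simp only [map_add, G'.c10, S'.hw, (G'.col 0).ex.apply_apply_eq_zero,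
          (G'.col 1).ex.apply_apply_eq_zero, map_zero, zero_add, LinearMap.comp_apply]
      rw [h1, h2]
      exact (carrier_apply _ _ _ _ _ _ _ _).symm
  · intro x
    obtain ⟨⟨a, b⟩, rfl⟩ := (spl (G.col 0).f (G.col 0).g S.w (G.col 0).inj (G.col 0).ex
      (LinearMap.ext S.hw)).surjective x
    have h1 : (G.row 1).f (spl (G.col 0).f (G.col 0).g S.w (G.col 0).inj (G.col 0).ex
      (LinearMap.ext S.hw) (a, b)) = Theta G S ((a, b), (0, 0)) := by
      rw [spl_apply, Theta_apply, map_add]; simp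
    rw [h1, hT, spl_apply]
    dsimp only
    rw [show τc0 ((G.col 0).f a + S.w b) = (G'.col 0).f a + S'.w b from
      carrier_apply _ _ _ _ _ _ _ _, Theta_apply, map_add]
    simp
  · intro y
    obtain ⟨⟨⟨a, b⟩, ⟨c, d⟩⟩, rfl⟩ := (Theta G S).surjective y
    rw [hT]
    have h1 : (G.row 1).g (Theta G S ((a, b), (c, d))) =
        (G.col 2).f c + ((G.row 1).g ∘ₗ S.u) d := by
      rw [Theta_apply]
      simp only [map_add, ← G.c01, S.hv, (G.row 1).ex.apply_apply_eq_zero,
        zero_add, LinearMap.comp_apply]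
    have h2 : (G'.row 1).g (Theta G' S' ((a, b), (c, d))) =
        (G'.col 2).f c + ((G'.row 1).g ∘ₗ S'.u) d := by
      rw [Theta_apply]
      simp only [map_add, ← G'.c01, S'.hv, (G'.row 1).ex.apply_apply_eq_zero,
        zero_add, LinearMap.comp_apply]
    rw [h1, h2]
    exact (carrier_apply _ _ _ _ _ _ _ _).symm

end Grid

end Pool.Agent.Helper49.KT
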