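import Pool.Agent.Helper49.KT.Integral

/-!
# A double short exact sequence over the order of conductor five in the Gaussian integers
-/

namespace Pool.Agent.Helper49.KT

open Function TensorProduct

/-- the inclusion of `ℤ[5i]` in `ℤ[i]` -/
noncomputable instance algOL : Algebra (Zsqrtd (-25)) GaussianInt :=
  (Zsqrtd.lift ⟨(⟨0, 5⟩ : GaussianInt), by ext <;> simp⟩).toAlgebra

/-- the residue field of `ℤ[5i]` -/
noncomputable instance algOF : Algebra (Zsqrtd (-25)) (ZMod 5) :=
  (Zsqrtd.lift ⟨(0 : ZMod 5), by decide⟩).toAlgebra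

lemma algOL_apply (x : Zsqrtd (-25)) :
    algebraMap (Zsqrtd (-25)) GaussianInt x = ⟨x.re, 5 * x.im⟩ := by
  change Zsqrtd.lift ⟨(⟨0, 5⟩ : GaussianInt), _⟩ x = _
  ext <;> simp [Zsqrtd.lift_apply_apply] <;> ring

lemma algOF_apply (x : Zsqrtd (-25)) :
    algebraMap (Zsqrtd (-25)) (ZMod 5) x = (x.re : ZMod 5) := by
  change Zsqrtd.lift ⟨(0 : ZMod 5), _⟩ x = _
  simp [Zsqrtd.lift_apply_apply]

/-- reduction of the Gaussian integers at a prime above five -/
noncomputable def red (r : ZMod 5) (hr : r * r = ((-1 : ℤ) : ZMod 5)) : GaussianInt →+* ZMod 5 :=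
  Zsqrtd.lift ⟨r, hr⟩

lemma red_apply (r : ZMod 5) (hr : r * r = ((-1 : ℤ) : ZMod 5)) (x : GaussianInt) :
    red r hr x = x.re + x.im * r := by
  simp [red, Zsqrtd.lift_apply_apply]

/-- reduction as a linear map over the order -/
noncomputable def redL (r : ZMod 5) (hr : r * r = ((-1 : ℤ) : ZMod 5)) :
    GaussianInt →ₗ[Zsqrtd (-25)] ZMod 5 where
  toFun := red r hr
  map_add' := map_add _
  map_smul' := fun c x => by
    rw [Algebra.smul_def, Algebra.smul_def, map_mul, algOL_apply, algOF_apply, red_apply]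
    have h5 : (5 : ZMod 5) = 0 := by decide
    simp [h5]

/-- multiplication by a generator of the prime and reduction form a short exact sequence -/
noncomputable def sesOf (r : ZMod 5) (hr : r * r = ((-1 : ℤ) : ZMod 5)) (a : GaussianInt)
    (ha : a ≠ 0) (h1 : red r hr a = 0)
    (h2 : ∀ x : GaussianInt, red r hr x = 0 → ∃ y, a * y = x) :
    LSES (Zsqrtd (-25)) GaussianInt GaussianInt (ZMod 5) where
  f := LinearMap.mulLeft (Zsqrtd (-25)) a
  g := redL r hr
  inj := fun x y h => mul_left_cancel₀ ha h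
  ex := fun x => by
    constructor
    · intro h
      exact h2 x h
    · rintro ⟨y, rfl⟩
      change red r hr (a * y) = 0
      rw [map_mul, h1, zero_mul]
  surj := fun x => by
    refine ⟨(x.val : GaussianInt), ?_⟩
    change red r hr (x.val : GaussianInt) = x
    rw [map_natCast]
    simp

/-- the first element of norm five -/
abbrev pa : GaussianInt := ⟨2, 1⟩

/-- the second element of norm five -/
abbrev pb : GaussianInt := ⟨2, -1⟩

lemma three_sq : (3 : ZMod 5) * 3 = ((-1 : ℤ) : ZMod 5) := by decide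

lemma two_sq : (2 : ZMod 5) * 2 = ((-1 : ℤ) : ZMod 5) := by decide

lemma dvd_a (x : GaussianInt) (hx : red 3 three_sq x = 0) : ∃ y, pa * y = x := by
  rw [red_apply] at hx
  have h1 : ((x.re + x.im * 3 : ℤ) : ZMod 5) = 0 := by push_cast; exact hx
  obtain ⟨k, hk⟩ := (ZMod.intCast_zmod_eq_zero_iff_dvd _ 5).1 h1
  refine ⟨⟨2 * k - x.im, x.im - k⟩, ?_⟩
  ext
  · simp; push_cast at hk; linarith
  · simp; try ring

lemma dvd_b (x : GaussianInt) (hx : red 2 two_sq x = 0) : ∃ y, pb * y = x := by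
  rw [red_apply] at hx
  have h1 : ((x.re + x.im * 2 : ℤ) : ZMod 5) = 0 := by push_cast; exact hx
  obtain ⟨k, hk⟩ := (ZMod.intCast_zmod_eq_zero_iff_dvd _ 5).1 h1
  refine ⟨⟨2 * k - x.im, k⟩, ?_⟩
  ext
  · simp; push_cast at hk; linarith
  · simp; try ring

lemma pa_ne : pa ≠ 0 := by
  intro h
  have := congrArg Zsqrtd.im h
  simp at this

lemma pb_ne : pb ≠ 0 := by
  intro h
  have := congrArg Zsqrtd.im h
  simp at this

lemma red_pa : red 3 three_sq pa = 0 := by
  rw [red_apply]; decide

lemma red_pb : red 2 two_sq pb = 0 := by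
  rw [red_apply]; decide

lemma red_pb' : red 3 three_sq pb ≠ 0 := by
  rw [red_apply]; decide

/-- the first short exact sequence -/
noncomputable def sa : LSES (Zsqrtd (-25)) GaussianInt GaussianInt (ZMod 5) :=
  sesOf 3 three_sq pa pa_ne red_pa dvd_a

/-- the second short exact sequence -/
noncomputable def sb : LSES (Zsqrtd (-25)) GaussianInt GaussianInt (ZMod 5) :=
  sesOf 2 two_sq pb pb_ne red_pb dvd_b

end Pool.Agent.Helper49.KT
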