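import Pool.Agent.Helper49.KT.Example1

/-!
# The field of Gaussian numbers as a localization
-/

namespace Pool.Agent.Helper49.KT

open Function TensorProduct nonZeroDivisors

/-- the field of Gaussian numbers -/
def Fi : Type := FractionRing GaussianInt

noncomputable instance : Field Fi := inferInstanceAs (Field (FractionRing GaussianInt))

noncomputable instance : Algebra GaussianInt Fi :=
  inferInstanceAs (Algebra GaussianInt (FractionRing GaussianInt))

instance : IsFractionRing GaussianInt Fi :=
  inferInstanceAs (IsFractionRing GaussianInt (FractionRing GaussianInt))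

noncomputable instance : Algebra (Zsqrtd (-25)) Fi :=
  ((algebraMap GaussianInt Fi).comp (algebraMap (Zsqrtd (-25)) GaussianInt)).toAlgebra

instance : IsScalarTower (Zsqrtd (-25)) GaussianInt Fi := IsScalarTower.of_algebraMap_eq' rfl

instance : CharZero Fi := charZero_of_injective_algebraMap (IsFractionRing.injective GaussianInt Fi)

section Loc

/-- the coordinates of a quadratic integer -/
def coordEquiv (d : ℤ) : (ℤ × ℤ) ≃ₗ[ℤ] Zsqrtd d where
  toFun x := ⟨x.1, x.2⟩
  invFun x := (x.re, x.im)
  map_add' x y := by ext <;> simp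
  map_smul' c x := by ext <;> simp
  left_inv x := rfl
  right_inv x := rfl

instance (d : ℤ) : Module.Finite ℤ (Zsqrtd d) := Module.Finite.equiv (coordEquiv d)

instance (d : ℤ) : Module.Free ℤ (Zsqrtd d) := Module.Free.of_equiv (coordEquiv d)

variable {B : Type} [CommRing B] [Algebra B GaussianInt] [Algebra B Fi]
  [IsScalarTower B GaussianInt Fi]

lemma isLoc (hinj : Injective (algebraMap B GaussianInt))
    (h5 : ∀ x : GaussianInt, ∃ b : B, algebraMap B GaussianInt b = 5 * x) :
    IsLocalization (Algebra.algebraMapSubmonoid B ℤ⁰) Fi := by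
  have hB : ∀ n : ℤ, algebraMap B Fi (algebraMap ℤ B n) = n := fun n => by simp
  have hBL : ∀ b : B, algebraMap B Fi b = algebraMap GaussianInt Fi (algebraMap B GaussianInt b) :=
    fun b => IsScalarTower.algebraMap_apply B GaussianInt Fi b
  rw [isLocalization_iff]
  refine ⟨?_, ?_, ?_⟩
  · rintro ⟨_, n, hn, rfl⟩
    change IsUnit (algebraMap B Fi (algebraMap ℤ B n))
    rw [hB]
    exact (Int.cast_ne_zero.2 (nonZeroDivisors.ne_zero hn)).isUnit
  · intro z
    obtain ⟨x, y, hy, rfl⟩ := IsFractionRing.div_surjective (A := GaussianInt) z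
    have hy0 : y ≠ 0 := nonZeroDivisors.ne_zero hy
    obtain ⟨b, hb⟩ := h5 (x * star y)
    have hN : y.norm ≠ 0 := by
      rw [Ne, Zsqrtd.norm_eq_zero_iff (by norm_num)]
      exact hy0
    refine ⟨⟨b, ⟨algebraMap ℤ B (5 * y.norm), 5 * y.norm, ?_, rfl⟩⟩, ?_⟩
    · exact mem_nonZeroDivisors_of_ne_zero (mul_ne_zero (by norm_num) hN)
    · have h1 : algebraMap GaussianInt Fi y ≠ 0 := by
        rwa [Ne, IsFractionRing.to_map_eq_zero_iff]
      have h2 : (y.norm : Fi) = algebraMap GaussianInt Fi y * algebraMap GaussianInt Fi (star y) := by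
        rw [← map_mul, ← Zsqrtd.norm_eq_mul_conj]
        simp
      rw [hB, hBL, hb, map_mul, map_mul]
      push_cast
      rw [h2]
      have h6 : algebraMap GaussianInt Fi 5 = 5 := map_ofNat _ 5
      rw [h6]
      field_simp
  · intro x y h
    have h1 : x = y := by
      rw [hBL, hBL] at h
      exact hinj (IsFractionRing.injective GaussianInt Fi h)
    exact ⟨1, by rw [h1]⟩

end Loc

lemma isLocL : IsLocalization (Algebra.algebraMapSubmonoid GaussianInt ℤ⁰) Fi :=
  isLoc Function.injective_id fun x => ⟨5 * x, rfl⟩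

lemma algOL_injective : Injective (algebraMap (Zsqrtd (-25)) GaussianInt) := by
  intro x y h
  rw [algOL_apply, algOL_apply] at h
  have h1 := congrArg Zsqrtd.re h
  have h2 := congrArg Zsqrtd.im h
  simp at h1 h2
  ext
  · exact h1
  · exact h2

lemma isLocO : IsLocalization (Algebra.algebraMapSubmonoid (Zsqrtd (-25)) ℤ⁰) Fi :=
  isLoc algOL_injective fun x => ⟨⟨5 * x.re, x.im⟩, by rw [algOL_apply]; ext <;> simp⟩

instance : Module.Flat GaussianInt Fi := IsLocalization.flat Fi GaussianInt⁰

instance : Module.Flat (Zsqrtd (-25)) Fi :=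
  haveI := isLocO
  IsLocalization.flat Fi (Algebra.algebraMapSubmonoid (Zsqrtd (-25)) ℤ⁰)

instance : Module.Finite ℚ Fi := by
  have := isLocL
  exact Module.Finite.of_isLocalization ℤ GaussianInt (Rₚ := ℚ) (Sₚ := Fi) ℤ⁰

instance : Module.Finite (Zsqrtd (-25)) GaussianInt :=
  Module.Finite.of_restrictScalars_finite ℤ (Zsqrtd (-25)) GaussianInt

instance : Module.Finite (Zsqrtd (-25)) (ZMod 5) :=
  Module.Finite.of_restrictScalars_finite ℤ (Zsqrtd (-25)) (ZMod 5)

end Pool.Agent.Helper49.KT
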