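import Pool.Agent.Helper49.KT.Defs
import Pool.Agent.Helper49.KT.Example2

/-!
# The spectrum of the Gaussian numbers and its models
-/

namespace Pool.Agent.Helper49.KT

open CategoryTheory Limits AlgebraicGeometry Function TensorProduct nonZeroDivisors

/-- the structure morphism of the spectrum of the Gaussian numbers -/
noncomputable abbrev sFi : Spec (.of Fi) ⟶ Spec (.of ℚ) :=
  Spec.map (CommRingCat.ofHom (algebraMap ℚ Fi))

instance : Smooth sFi := by
  rw [HasRingHomProperty.Spec_iff (P := @Smooth)]
  change (algebraMap ℚ Fi).Smooth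
  rw [RingHom.smooth_algebraMap]
  have h1 : Algebra.FormallyEtale ℚ Fi := Algebra.FormallyEtale.of_isSeparable ℚ Fi
  have h2 : Algebra.FinitePresentation ℚ Fi :=
    Algebra.FinitePresentation.of_finiteType.1 inferInstance
  exact { }

instance : IsFinite sFi := by
  rw [IsFinite.SpecMap_iff]
  change (algebraMap ℚ Fi).Finite
  rw [RingHom.finite_algebraMap]
  infer_instance

/-- the model given by an order -/
noncomputable def orderModel (B : Type) [CommRing B] [Algebra B Fi] [Module.Finite ℤ B]
    [Module.Flat ℤ B] (h : IsLocalization (Algebra.algebraMapSubmonoid B ℤ⁰) Fi) : Model sFi where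
  total := Spec (.of B)
  str := Spec.map (CommRingCat.ofHom (algebraMap ℤ B))
  gen := Spec.map (CommRingCat.ofHom (algebraMap B Fi))
  proper := by
    have : IsFinite (Spec.map (CommRingCat.ofHom (algebraMap ℤ B))) := by
      rw [IsFinite.SpecMap_iff]
      change (algebraMap ℤ B).Finite
      rw [RingHom.finite_algebraMap]
      infer_instance
    infer_instance
  flat := by
    rw [Flat.SpecMap_iff]
    change (algebraMap ℤ B).Flat
    rw [RingHom.flat_algebraMap_iff]
    infer_instance
  isPullback := by
    apply isPullback_SpecMap_of_isPushout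
    have h' : IsLocalization (ℤ⁰.map (algebraMap ℤ B)) Fi := h
    exact CommRingCat.isPushout_of_isLocalization (algebraMap ℤ B) (algebraMap ℚ Fi)
      (RingHom.ext_int _ _) ℤ⁰

end Pool.Agent.Helper49.KT
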