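import Pool.Agent.Helper49.KT.Example3
import Pool.Agent.Helper49.KT.Bridge5

/-!
# The determinant and valuation of the example
-/

namespace Pool.Agent.Helper49.KT

open CategoryTheory Limits AlgebraicGeometry Function TensorProduct nonZeroDivisors
  IsDedekindDomain

lemma five_ne : (5 : Fi) ≠ 0 := by norm_num

lemma algO_five : algebraMap (Zsqrtd (-25)) Fi 5 = 5 := map_ofNat _ 5

instance : Subsingleton (Fi ⊗[Zsqrtd (-25)] ZMod 5) := by
  refine subsingleton_of_forall_eq 0 fun z => ?_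
  induction z using TensorProduct.induction_on with
  | zero => rfl
  | add x y hx hy => rw [hx, hy, add_zero]
  | tmul k x =>
    have h1 : k = (5 : Zsqrtd (-25)) • (k / 5) := by
      rw [Algebra.smul_def, algO_five]
      field_simp
    have h2 : (5 : Zsqrtd (-25)) • x = 0 := by
      rw [Algebra.smul_def, map_ofNat]
      have : (OfNat.ofNat 5 : ZMod 5) = 0 := by decide
      rw [this, zero_mul]
    rw [h1, TensorProduct.smul_tmul, h2, TensorProduct.tmul_zero]

/-- Gaussian integers may be moved through the tensor product over the order -/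
lemma move (c x : GaussianInt) (k : Fi) :
    k ⊗ₜ[Zsqrtd (-25)] (c * x) = (algebraMap GaussianInt Fi c * k) ⊗ₜ[Zsqrtd (-25)] x := by
  have h1 : k = (5 : Zsqrtd (-25)) • (k / 5) := by
    rw [Algebra.smul_def, algO_five]
    field_simp
  have h2 : (5 : Zsqrtd (-25)) • (c * x) = (⟨5 * c.re, c.im⟩ : Zsqrtd (-25)) • x := by
    rw [Algebra.smul_def, Algebra.smul_def, algOL_apply, algOL_apply]
    ext <;> simp <;> ring
  conv_lhs => rw [h1]
  rw [TensorProduct.smul_tmul, h2, ← TensorProduct.smul_tmul]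
  congr 1
  rw [Algebra.smul_def, IsScalarTower.algebraMap_apply (Zsqrtd (-25)) GaussianInt Fi, algOL_apply]
  have h3 : (⟨5 * c.re, 5 * c.im⟩ : GaussianInt) = 5 * c := by ext <;> simp
  change algebraMap GaussianInt Fi ⟨5 * c.re, 5 * c.im⟩ * (k / 5) = _
  rw [h3, map_mul]
  have h6 : algebraMap GaussianInt Fi 5 = 5 := map_ofNat _ 5
  rw [h6]
  field_simp

instance : Nontrivial (Fi ⊗[Zsqrtd (-25)] GaussianInt) := by
  let φ : Fi ⊗[Zsqrtd (-25)] GaussianInt →ₐ[Fi] Fi :=
    Algebra.TensorProduct.lift (AlgHom.id Fi Fi)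
      (IsScalarTower.toAlgHom (Zsqrtd (-25)) GaussianInt Fi) (fun _ _ => Commute.all _ _)
  exact φ.toRingHom.domain_nontrivial

lemma algLF_ne {x : GaussianInt} (hx : x ≠ 0) : algebraMap GaussianInt Fi x ≠ 0 := by
  rwa [Ne, IsFractionRing.to_map_eq_zero_iff]

/-- the quotient of the two elements of norm five -/
noncomputable def ww : Fiˣ :=
  Units.mk0 (algebraMap GaussianInt Fi pb / algebraMap GaussianInt Fi pa)
    (div_ne_zero (algLF_ne pb_ne) (algLF_ne pa_ne))

theorem D_example : ∃ n : ℕ, n ≠ 0 ∧ D (sa.bc Fi) (sb.bc Fi) = ww ^ n := by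
  let τ : (Fi ⊗[Zsqrtd (-25)] GaussianInt) ≃ₗ[Fi] (Fi ⊗[Zsqrtd (-25)] GaussianInt) :=
    LinearEquiv.smulOfUnit ww
  refine ⟨Module.finrank Fi (Fi ⊗[Zsqrtd (-25)] GaussianInt), Module.finrank_pos.ne', ?_⟩
  rw [D_spec _ _ τ ?_]
  · apply Units.ext
    rw [LinearEquiv.coe_det, Units.val_pow_eq_pow_val]
    have h1 : (τ : (Fi ⊗[Zsqrtd (-25)] GaussianInt) →ₗ[Fi] (Fi ⊗[Zsqrtd (-25)] GaussianInt)) =
        (ww : Fi) • LinearMap.id := rfl
    rw [h1, LinearMap.det_smul, LinearMap.det_id, mul_one]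
  · refine ⟨fun u => ?_, fun v => Subsingleton.elim _ _⟩
    induction u using TensorProduct.induction_on with
    | zero => simp
    | add x y hx hy => rw [map_add, map_add, map_add, hx, hy]
    | tmul k x =>
      change (ww : Fi) • (k ⊗ₜ[Zsqrtd (-25)] (pa * x)) = k ⊗ₜ[Zsqrtd (-25)] (pb * x)
      rw [TensorProduct.smul_tmul', move, move]
      congr 1
      have h0 := algLF_ne pa_ne
      simp only [ww, Units.val_mk0, smul_eq_mul]
      field_simp

end Pool.Agent.Helper49.KT
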