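import Pool.Agent.Helper49.KT.Example4

/-!
# The two models have different images
-/

namespace Pool.Agent.Helper49.KT

open CategoryTheory Limits AlgebraicGeometry Function TensorProduct nonZeroDivisors
  IsDedekindDomain

instance : Fact (Nat.Prime 5) := ⟨by norm_num⟩

/-- a prime of the Gaussian integers above five -/
noncomputable def pr : HeightOneSpectrum GaussianInt where
  asIdeal := RingHom.ker (red 3 three_sq)
  isPrime := RingHom.ker_isPrime _
  ne_bot := by
    intro h
    have h1 : pa ∈ RingHom.ker (red 3 three_sq) := red_pa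
    rw [h] at h1
    exact pa_ne h1

/-- the valuation as a homomorphism to the integers -/
noncomputable def val : Additive Fiˣ →+ ℤ :=
  MonoidHom.toAdditiveLeft (pr.valuationOfNeZero (K := Fi))

lemma val_unit (u : GaussianIntˣ) :
    val (Additive.ofMul (Units.map (algebraMap GaussianInt Fi).toMonoidHom u)) = 0 := by
  have h := pr.valuation_of_unit_eq (K := Fi) u
  exact congrArg Multiplicative.toAdd h

lemma val_ww : val (Additive.ofMul ww) ≠ 0 := by
  intro h
  have h1 : pr.valuationOfNeZero (K := Fi) ww = 1 := congrArg Multiplicative.ofAdd h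
  have h2 : pr.valuation Fi (ww : Fi) = 1 := by
    rw [← HeightOneSpectrum.valuationOfNeZero_eq, h1]
    rfl
  have h3 : pr.valuation Fi (algebraMap GaussianInt Fi pa) < 1 :=
    (pr.valuation_lt_one_iff_mem pa).2 red_pa
  have h4 : ¬ pr.valuation Fi (algebraMap GaussianInt Fi pb) < 1 := by
    rw [pr.valuation_lt_one_iff_mem]
    exact red_pb'
  apply h4
  have h5 : algebraMap GaussianInt Fi pb = (ww : Fi) * algebraMap GaussianInt Fi pa := by
    rw [ww, Units.val_mk0, div_mul_cancel₀]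
    exact algLF_ne pa_ne
  rw [h5, map_mul, h2, one_mul]
  exact h3

/-- the valuation of the determinant -/
noncomputable def hval : K₁ (Spec (.of Fi)).Modules (Coh (Spec (.of Fi))) →+ ℤ :=
  val.comp detHom

/-- the valuation of the determinant as a linear form -/
noncomputable def psi : K₁Q (Spec (.of Fi)) →ₗ[ℚ] ℚ :=
  ((TensorProduct.AlgebraTensorModule.rid ℤ ℚ ℚ).toLinearMap ∘ₗ
    (hval.toIntLinearMap.baseChange ℚ) : (ℚ ⊗[ℤ] K₁ _ (Coh (Spec (.of Fi)))) →ₗ[ℚ] ℚ)

lemma psi_apply (l : DSES (Spec (.of Fi)).Modules (Coh (Spec (.of Fi)))) :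
    psi (K₁Q.mk l) = (val (Additive.ofMul (dd l)) : ℚ) := by
  change (hval (K₁.mk l) : ℤ) • (1 : ℚ) = _
  rw [hval, AddMonoidHom.comp_apply, detHom_mk]
  simp

/-- the Gaussian integers as a module over the order -/
noncomputable abbrev N₁ : ModuleCat (CommRingCat.of (Zsqrtd (-25))) := .of _ GaussianInt

/-- the residue field as a module over the order -/
noncomputable abbrev N₃ : ModuleCat (CommRingCat.of (Zsqrtd (-25))) := .of _ (ZMod 5)

lemma fin₁ : Module.Finite (Zsqrtd (-25)) N₁ :=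
  (inferInstance : Module.Finite (Zsqrtd (-25)) GaussianInt)

lemma fin₃ : Module.Finite (Zsqrtd (-25)) N₃ :=
  (inferInstance : Module.Finite (Zsqrtd (-25)) (ZMod 5))

/-- the double short exact sequence on the order -/
noncomputable def lO : DSES (Spec (.of (Zsqrtd (-25)))).Modules (Coh (Spec (.of (Zsqrtd (-25))))) :=
  tildeDSES (R := .of (Zsqrtd (-25))) (N₁ := N₁) (N₂ := N₁) (N₃ := N₃) fin₁ fin₁ fin₃ sa sb

/-- the double short exact sequence on the generic fibre -/
noncomputable def lF : DSES (Spec (.of Fi)).Modules (Coh (Spec (.of Fi))) :=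
  tildeDSES (R := .of Fi) (N₁ := .of Fi (Fi ⊗[Zsqrtd (-25)] N₁))
      (N₂ := .of Fi (Fi ⊗[Zsqrtd (-25)] N₁))
      (N₃ := .of Fi (Fi ⊗[Zsqrtd (-25)] N₃)) (Module.Finite.base_change (Zsqrtd (-25)) Fi N₁)
      (Module.Finite.base_change (Zsqrtd (-25)) Fi N₁)
      (Module.Finite.base_change (Zsqrtd (-25)) Fi N₃)
      (LSES.bc Fi sa) (LSES.bc Fi sb)

lemma lF_image : lF.IsImage (Scheme.Modules.pullback
    (Spec.map (CommRingCat.ofHom (algebraMap (Zsqrtd (-25)) Fi)))) lO :=
  tilde_isImage (A := Zsqrtd (-25)) (K := Fi) (N₁ := N₁) (N₂ := N₁) (N₃ := N₃) fin₁ fin₁ fin₃ sa sb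

lemma dd_lF : dd lF = D (LSES.bc Fi sa) (LSES.bc Fi sb) :=
  dd_tilde (K := Fi) (N₁ := .of Fi (Fi ⊗[Zsqrtd (-25)] N₁))
      (N₂ := .of Fi (Fi ⊗[Zsqrtd (-25)] N₁))
      (N₃ := .of Fi (Fi ⊗[Zsqrtd (-25)] N₃)) (Module.Finite.base_change (Zsqrtd (-25)) Fi N₁)
      (Module.Finite.base_change (Zsqrtd (-25)) Fi N₁)
      (Module.Finite.base_change (Zsqrtd (-25)) Fi N₃)
      (LSES.bc Fi sa) (LSES.bc Fi sb)

theorem image_ne : (orderModel GaussianInt isLocL).image ≠
    (orderModel (Zsqrtd (-25)) isLocO).image := by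
  intro h
  have h1 : K₁Q.mk lF ∈ (orderModel (Zsqrtd (-25)) isLocO).image := by
    apply Submodule.subset_span
    exact ⟨lF, lO, lF_image, rfl⟩
  have h2 : (orderModel GaussianInt isLocL).image ⊆ LinearMap.ker psi := by
    apply Submodule.span_le.2
    rintro _ ⟨m, m', hm, rfl⟩
    rw [SetLike.mem_coe, LinearMap.mem_ker, psi_apply]
    obtain ⟨u, hu⟩ := dd_integral (A := GaussianInt) (K := Fi) m m' hm
    rw [hu, val_unit, Int.cast_zero]
  rw [← h] at h1
  have h3 := h2 h1
  rw [SetLike.mem_coe, LinearMap.mem_ker, psi_apply, dd_lF] at h3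
  obtain ⟨n, hn, hD⟩ := D_example
  rw [hD, ofMul_pow, map_nsmul, Int.cast_eq_zero, smul_eq_zero] at h3
  exact h3.elim hn val_ww

end Pool.Agent.Helper49.KT
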