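import Pool.Agent.Helper49.KT.Det

/-!
# Integrality of determinants of double short exact sequences
-/

namespace Pool.Agent.Helper49.KT

open Function TensorProduct

section BC

variable {A : Type*} [CommRing A] (K : Type*) [Field K] [Algebra A K] [Module.Flat A K]
  {M₁ M₂ M₃ : Type*} [AddCommGroup M₁] [Module A M₁] [AddCommGroup M₂] [Module A M₂]
  [AddCommGroup M₃] [Module A M₃]

/-- base change of a short exact sequence along a flat extension -/
noncomputable def LSES.bc (s : LSES A M₁ M₂ M₃) :
    LSES K (K ⊗[A] M₁) (K ⊗[A] M₂) (K ⊗[A] M₃) where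
  f := s.f.baseChange K
  g := s.g.baseChange K
  inj := Module.Flat.lTensor_preserves_injective_linearMap s.f s.inj
  ex := lTensor_exact K s.ex s.surj
  surj := LinearMap.lTensor_surjective K s.surj

/-- adding a summand to the first two terms -/
def LSES.add {R : Type*} [CommRing R] [Module R M₁] [Module R M₂] [Module R M₃]
    (s : LSES R M₁ M₂ M₃) (E : Type*) [AddCommGroup E] [Module R E] :
    LSES R (M₁ × E) (M₂ × E) M₃ where
  f := s.f.prodMap LinearMap.id
  g := s.g ∘ₗ LinearMap.fst R M₂ E
  inj := fun x y h => by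
    have h1 := congrArg Prod.fst h
    have h2 := congrArg Prod.snd h
    exact Prod.ext (s.inj h1) h2
  ex := fun x => by
    constructor
    · intro h
      obtain ⟨a, ha⟩ := (s.ex x.1).1 h
      exact ⟨(a, x.2), Prod.ext ha rfl⟩
    · rintro ⟨y, rfl⟩
      exact s.ex.apply_apply_eq_zero y.1
  surj := fun x => by
    obtain ⟨a, ha⟩ := s.surj x
    exact ⟨(a, 0), ha⟩

end BC

section Free

variable {A : Type*} [CommRing A] (K : Type*) [Field K] [Algebra A K] [Module.Flat A K]
  {Z E M : Type*} [AddCommGroup Z] [Module A Z] [AddCommGroup E] [Module A E]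
  [AddCommGroup M] [Module A M]

omit [Module.Flat A K] in
/-- an automorphism of the middle term compatible with the projections restricts to the kernels -/
lemma exists_restrict (s t : LSES A Z E M) (Ω : E ≃ₗ[A] E) (hΩ : ∀ x, s.g (Ω x) = t.g x) :
    ∃ ω : Z ≃ₗ[A] Z, ∀ z, Ω (t.f z) = s.f (ω z) := by
  have key : (LinearMap.range t.f).map (Ω : E →ₗ[A] E) = LinearMap.range s.f := by
    ext x
    simp only [Submodule.mem_map, LinearMap.mem_range]
    constructor
    · rintro ⟨_, ⟨z, rfl⟩, rfl⟩
      exact (s.ex _).1 (by simpa [t.ex.apply_apply_eq_zero] using hΩ (t.f z))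
    · rintro ⟨z, rfl⟩
      have h1 : t.g (Ω.symm (s.f z)) = 0 := by
        rw [← hΩ, LinearEquiv.apply_symm_apply, s.ex.apply_apply_eq_zero]
      obtain ⟨y, hy⟩ := (t.ex _).1 h1
      exact ⟨t.f y, ⟨y, rfl⟩, by simp [hy]⟩
  let ω : Z ≃ₗ[A] Z := (LinearEquiv.ofInjective t.f t.inj).trans
    ((Ω.submoduleMap (LinearMap.range t.f)).trans
      ((LinearEquiv.ofEq _ _ key).trans (LinearEquiv.ofInjective s.f s.inj).symm))
  refine ⟨ω, fun z => ?_⟩
  have h2 : LinearEquiv.ofInjective s.f s.inj (ω z) =
      (LinearEquiv.ofEq _ _ key) (Ω.submoduleMap (LinearMap.range t.f)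
        (LinearEquiv.ofInjective t.f t.inj z)) := by
    simp [ω]
  have h3 := congrArg Subtype.val h2
  simpa using h3.symm

omit [Module.Flat A K] in
lemma det_bc [Module.Free A E] [Module.Finite A E] (Ω : E ≃ₗ[A] E) :
    LinearEquiv.det (Ω.baseChange A K E E) =
      Units.map (algebraMap A K).toMonoidHom (LinearEquiv.det Ω) := by
  apply Units.ext
  rw [LinearEquiv.coe_det, Units.coe_map, LinearEquiv.coe_det]
  exact LinearMap.det_baseChange (Ω : E →ₗ[A] E)

lemma D_add (s t : LSES A Z E M) (X : Type*) [AddCommGroup X] [Module A X]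
    [Module.Finite A Z] [Module.Finite A E] [Module.Finite A X] :
    D ((s.add X).bc K) ((t.add X).bc K) = D (s.bc K) (t.bc K) := by
  have : Module.Finite A M := Module.Finite.of_surjective s.g s.surj
  obtain ⟨τ, hτ⟩ := exists_carries (s.bc K).inj (s.bc K).ex (s.bc K).surj
    (t.bc K).inj (t.bc K).ex (t.bc K).surj
  let e := TensorProduct.prodRight A K K E X
  let τ' : (K ⊗[A] (E × X)) ≃ₗ[K] (K ⊗[A] (E × X)) :=
    e.trans ((τ.prodCongr (LinearEquiv.refl K _)).trans e.symm)
  rw [D_spec _ _ τ hτ, D_spec _ _ τ' ?_]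
  · apply Units.ext
    rw [LinearEquiv.coe_det, LinearEquiv.coe_det]
    have h1 : (τ' : (K ⊗[A] (E × X)) →ₗ[K] (K ⊗[A] (E × X))) =
        e.symm.toLinearMap ∘ₗ (τ.prodCongr (LinearEquiv.refl K (K ⊗[A] X))).toLinearMap ∘ₗ
          e.toLinearMap := by
      apply LinearMap.ext
      intro x
      simp [τ']
    rw [h1]
    have h2 := LinearMap.det_conj
      (τ.prodCongr (LinearEquiv.refl K (K ⊗[A] X))).toLinearMap e.symm
    rw [LinearEquiv.symm_symm] at h2
    rw [h2]
    rw [det_tri_prod (τ : _ →ₗ[K] _) LinearMap.id]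
    · simp
    · intro u; simp
    · intro u; simp
  · constructor
    · intro u
      induction u using TensorProduct.induction_on with
      | zero => simp
      | add x y hx hy => rw [map_add, map_add, map_add, hx, hy]
      | tmul k z =>
        apply e.injective
        have h3 := hτ.1 (k ⊗ₜ z.1)
        simp only [LSES.bc, LinearMap.baseChange_tmul] at h3
        simp [τ', LSES.bc, LSES.add, e, h3]
    · intro v
      obtain ⟨v, rfl⟩ := e.symm.surjective v
      have h4 : ∀ (s : LSES A Z E M) (v : (K ⊗[A] E) × (K ⊗[A] X)),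
          ((s.add X).bc K).g (e.symm v) = (s.bc K).g v.1 := by
        intro s v
        obtain ⟨w, rfl⟩ := e.surjective v
        rw [LinearEquiv.symm_apply_apply]
        induction w using TensorProduct.induction_on with
        | zero => simp
        | add x y hx hy => rw [map_add, hx, hy, map_add, Prod.fst_add, map_add]
        | tmul k z => simp [LSES.bc, LSES.add, e]
      have h5 : τ' (e.symm v) = e.symm (τ v.1, v.2) := by
        simp [τ']
      rw [h5, h4, h4]
      exact hτ.2 v.1

/-- Two free presentations with the same terms: the determinant is a unit. -/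
theorem D_free [Module.Free A Z] [Module.Finite A Z] [Module.Free A E] [Module.Finite A E]
    (s t : LSES A Z E M) :
    ∃ u : Aˣ, D (s.bc K) (t.bc K) = Units.map (algebraMap A K).toMonoidHom u := by
  have : Module.Finite A M := Module.Finite.of_surjective s.g s.surj
  -- comparison maps
  obtain ⟨α, hα⟩ := Module.projective_lifting_property t.g s.g t.surj
  obtain ⟨β, hβ⟩ := Module.projective_lifting_property s.g t.g s.surj
  have hα' : ∀ x, t.g (α x) = s.g x := fun x => LinearMap.congr_fun hα x
  have hβ' : ∀ x, s.g (β x) = t.g x := fun x => LinearMap.congr_fun hβ x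
  -- the automorphism of `E × E`
  let Ω : (E × E) ≃ₗ[A] (E × E) :=
    { toFun := fun x => (x.2 + β (x.1 - α x.2), x.1 - α x.2)
      invFun := fun y => (y.2 + α (y.1 - β y.2), y.1 - β y.2)
      map_add' := fun x y => by
        ext <;> simp only [Prod.fst_add, Prod.snd_add, map_add, map_sub] <;> abel
      map_smul' := fun c x => by
        ext <;> simp only [Prod.smul_fst, Prod.smul_snd, map_smul, map_sub, smul_add, smul_sub,
          RingHom.id_apply]
      left_inv := fun x => by ext <;> simp
      right_inv := fun y => by ext <;> simp }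
  have hΩ : ∀ x, (s.add E).g (Ω x) = (t.add E).g x := by
    intro x
    change s.g (x.2 + β (x.1 - α x.2)) = t.g x.1
    rw [map_add, hβ', map_sub, hα']
    abel
  obtain ⟨ω, hω⟩ := exists_restrict (s.add E) (t.add E) Ω hΩ
  have h1 := det_eq_D_mul ((t.add E).bc K) ((s.add E).bc K) (Ω.baseChange A K _ _)
    (ω.baseChange A K _ _) (LinearEquiv.refl K _) ?_ ?_
  · rw [D_add, det_bc, det_bc] at h1
    have h2 : D (s.bc K) (t.bc K) = (D (t.bc K) (s.bc K))⁻¹ := by
      obtain ⟨τ, hτ⟩ := exists_carries (s.bc K).inj (s.bc K).ex (s.bc K).surj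
        (t.bc K).inj (t.bc K).ex (t.bc K).surj
      have hτ' : (LinearEquiv.det τ.symm)⁻¹ = LinearEquiv.det τ := by
        rw [inv_eq_iff_mul_eq_one, ← map_mul]
        have : τ.symm * τ = 1 := LinearEquiv.ext fun x => τ.symm_apply_apply x
        rw [this, map_one]
      rw [D_spec _ _ τ hτ, D_spec (t.bc K) (s.bc K) τ.symm, hτ']
      refine ⟨fun u => ?_, fun v => ?_⟩
      · rw [← hτ.1, LinearEquiv.symm_apply_apply]
      · rw [← hτ.2, LinearEquiv.apply_symm_apply]
    refine ⟨(LinearEquiv.det Ω)⁻¹ * LinearEquiv.det ω, ?_⟩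
    rw [h2, map_mul, map_inv, h1]
    simp
  · intro a
    induction a using TensorProduct.induction_on with
    | zero => simp
    | add x y hx hy => rw [map_add, map_add, map_add, map_add, hx, hy]
    | tmul k z =>
      have := hω z
      simp [LSES.bc, this]
  · intro b
    induction b using TensorProduct.induction_on with
    | zero => simp
    | add x y hx hy => rw [map_add, map_add, map_add, map_add, hx, hy]
    | tmul k z =>
      have := hΩ z
      simp [LSES.bc, this]

end Free

section GridBC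

variable {A : Type*} [CommRing A] (K : Type*) [Field K] [Algebra A K] [Module.Flat A K]
  {X : Fin 3 → Fin 3 → Type*} [∀ i j, AddCommGroup (X i j)] [∀ i j, Module A (X i j)]

omit [Module.Flat A K] in
lemma bc_comm {P Q R S : Type*} [AddCommGroup P] [Module A P] [AddCommGroup Q] [Module A Q]
    [AddCommGroup R] [Module A R] [AddCommGroup S] [Module A S] (f : P →ₗ[A] Q) (g : Q →ₗ[A] S)
    (f' : P →ₗ[A] R) (g' : R →ₗ[A] S) (h : ∀ x, g (f x) = g' (f' x)) (x : K ⊗[A] P) :
    g.baseChange K (f.baseChange K x) = g'.baseChange K (f'.baseChange K x) := by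
  have h1 : g ∘ₗ f = g' ∘ₗ f' := LinearMap.ext h
  have h2 := LinearMap.congr_fun (congrArg (LinearMap.baseChange K) h1) x
  rwa [LinearMap.baseChange_comp, LinearMap.baseChange_comp] at h2

/-- base change of a grid -/
noncomputable def LGrid.bc (G : LGrid A X) : LGrid K (fun i j => K ⊗[A] X i j) where
  row i := (G.row i).bc K
  col j := (G.col j).bc K
  c00 := bc_comm K _ _ _ _ G.c00
  c01 := bc_comm K _ _ _ _ G.c01
  c10 := bc_comm K _ _ _ _ G.c10
  c11 := bc_comm K _ _ _ _ G.c11

end GridBC

section Res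

universe u

variable {A : Type u} [CommRing A] {M₁ M₂ M₃ E₁ E₃ : Type u} [AddCommGroup M₁] [Module A M₁]
  [AddCommGroup M₂] [Module A M₂] [AddCommGroup M₃] [Module A M₃] [AddCommGroup E₁] [Module A E₁]
  [AddCommGroup E₃] [Module A E₃]

variable (M₂) in
/-- the terms of the grid of a horseshoe resolution -/
def RX (a : E₁ →ₗ[A] M₁) (c : E₃ →ₗ[A] M₃) : Fin 3 → Fin 3 → ModuleCat.{u} A
  | 0, 0 => .of A (LinearMap.ker a)
  | 0, 1 => .of A E₁
  | 0, 2 => .of A M₁
  | 1, 0 => .of A (LinearMap.ker a × LinearMap.ker c)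
  | 1, 1 => .of A (E₁ × E₃)
  | 1, 2 => .of A M₂
  | 2, 0 => .of A (LinearMap.ker c)
  | 2, 1 => .of A E₃
  | 2, 2 => .of A M₃

/-- the tautological presentation of a quotient -/
def kerSES (a : E₁ →ₗ[A] M₁) (ha : Surjective a) : LSES A (LinearMap.ker a) E₁ M₁ where
  f := (LinearMap.ker a).subtype
  g := a
  inj := Subtype.val_injective
  ex := LinearMap.exact_subtype_ker_map a
  surj := ha

/-- the split short exact sequence -/
def splitSES (P Q : Type*) [AddCommGroup P] [Module A P] [AddCommGroup Q] [Module A Q] :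
    LSES A P (P × Q) Q where
  f := LinearMap.inl A P Q
  g := LinearMap.snd A P Q
  inj := LinearMap.inl_injective
  ex := fun x => by
    constructor
    · intro h
      exact ⟨x.1, Prod.ext rfl h.symm⟩
    · rintro ⟨y, rfl⟩
      rfl
  surj := LinearMap.snd_surjective

/-- the middle row of the horseshoe grid -/
def midSES (s : LSES A M₁ M₂ M₃) (a : E₁ →ₗ[A] M₁) (ha : Surjective a) (c : E₃ →ₗ[A] M₃)
    (hc : Surjective c) (h : E₃ →ₗ[A] M₂) (hh : ∀ y, s.g (h y) = c y)
    (κ : LinearMap.ker c →ₗ[A] E₁) (hκ : ∀ y : LinearMap.ker c, s.f (a (κ y)) = - h y) :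
    LSES A (LinearMap.ker a × LinearMap.ker c) (E₁ × E₃) M₂ where
  f := LinearMap.prod
    (LinearMap.coprod (LinearMap.ker a).subtype κ)
    ((LinearMap.ker c).subtype ∘ₗ LinearMap.snd A _ _)
  g := LinearMap.coprod (s.f ∘ₗ a) h
  inj := by
    rw [← LinearMap.ker_eq_bot, LinearMap.ker_eq_bot']
    rintro ⟨x, y⟩ hxy
    have h2 : y = 0 := by
      have := congrArg Prod.snd hxy
      simpa using this
    subst h2
    have h1 : x = 0 := by
      have := congrArg Prod.fst hxy
      simpa using this
    simp [h1]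
  ex := by
    rintro ⟨x, y⟩
    constructor
    · intro h0
      have h1 : s.f (a x) + h y = 0 := by simpa using h0
      have h2 : c y = 0 := by
        have := congrArg s.g h1
        rw [map_add, s.ex.apply_apply_eq_zero, zero_add, hh, map_zero] at this
        exact this
      have h3 : a (x - κ ⟨y, h2⟩) = 0 := by
        apply s.inj
        rw [map_sub, map_sub, hκ, map_zero, sub_neg_eq_add]
        exact h1
      exact ⟨(⟨x - κ ⟨y, h2⟩, h3⟩, ⟨y, h2⟩), by simp⟩
    · rintro ⟨⟨x', y'⟩, hx⟩
      rw [← hx]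
      have h4 : a x'.1 = 0 := x'.2
      simp [hκ, h4]
  surj := by
    intro m
    obtain ⟨y, hy⟩ := hc (s.g m)
    have : s.g (m - h y) = 0 := by rw [map_sub, hh, hy, sub_self]
    obtain ⟨m₁, hm₁⟩ := (s.ex _).1 this
    obtain ⟨x, hx⟩ := ha m₁
    exact ⟨(x, y), by simp [hx, hm₁]⟩

/-- the horseshoe grid -/
def resGrid (s : LSES A M₁ M₂ M₃) (a : E₁ →ₗ[A] M₁) (ha : Surjective a) (c : E₃ →ₗ[A] M₃)
    (hc : Surjective c) (h : E₃ →ₗ[A] M₂) (hh : ∀ y, s.g (h y) = c y)
    (κ : LinearMap.ker c →ₗ[A] E₁) (hκ : ∀ y : LinearMap.ker c, s.f (a (κ y)) = - h y) :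
    LGrid A (fun i j => (RX M₂ a c i j : Type u)) where
  row := fun i => match i with
    | 0 => kerSES a ha
    | 1 => midSES s a ha c hc h hh κ hκ
    | 2 => kerSES c hc
  col := fun i => match i with
    | 0 => splitSES (LinearMap.ker a) (LinearMap.ker c)
    | 1 => splitSES E₁ E₃
    | 2 => s
  c00 := fun x => by
    change ((x : LinearMap.ker a).1, (0 : E₃)) = _
    change _ = ((x : LinearMap.ker a).1 + κ 0, (0 : E₃))
    simp
  c01 := fun x => by
    change s.f (a x) = s.f (a x) + h 0
    simp
  c10 := fun x => rfl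
  c11 := fun x => by
    change s.g (s.f (a (x : E₁ × E₃).1) + h (x : E₁ × E₃).2) = c (x : E₁ × E₃).2
    rw [map_add, s.ex.apply_apply_eq_zero, hh, zero_add]

end Res

section Integral

universe u

variable {A : Type u} [CommRing A] [IsDomain A] [IsPrincipalIdealRing A] (K : Type*) [Field K]
  [Algebra A K] [Module.Flat A K] {M₁ M₂ M₃ : Type u} [AddCommGroup M₁] [Module A M₁]
  [AddCommGroup M₂] [Module A M₂] [AddCommGroup M₃] [Module A M₃]

/-- **Integrality.** The determinant of a double short exact sequence of finitely generated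
modules over a principal ideal domain is a unit. -/
theorem D_integral [Module.Finite A M₁] [Module.Finite A M₂] [Module.Finite A M₃]
    (s t : LSES A M₁ M₂ M₃) :
    ∃ u : Aˣ, D (s.bc K) (t.bc K) = Units.map (algebraMap A K).toMonoidHom u := by
  obtain ⟨n₁, a', ha'⟩ := Module.Finite.exists_fin' A M₁
  obtain ⟨n₃, c', hc'⟩ := Module.Finite.exists_fin' A M₃
  have key : ∀ s : LSES A M₁ M₂ M₃, ∃ h : (Fin n₃ → A) →ₗ[A] M₂, (∀ y, s.g (h y) = c' y) ∧
      ∃ κ : LinearMap.ker c' →ₗ[A] (Fin n₁ → A), ∀ y : LinearMap.ker c',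
        s.f (a' (κ y)) = - h y := by
    intro s
    obtain ⟨h, hh⟩ := Module.projective_lifting_property s.g c' s.surj
    have hh' : ∀ y, s.g (h y) = c' y := fun y => LinearMap.congr_fun hh y
    let h0 : LinearMap.ker c' →ₗ[A] LinearMap.range s.f :=
      (-(h ∘ₗ (LinearMap.ker c').subtype)).codRestrict (LinearMap.range s.f) <| by
        intro y
        rw [LinearMap.mem_range]
        apply (s.ex _).1
        have : c' y.1 = 0 := y.2
        simp [hh', this]
    let e := LinearEquiv.ofInjective s.f s.inj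
    obtain ⟨κ, hκ⟩ := Module.projective_lifting_property a' (e.symm.toLinearMap ∘ₗ h0) ha'
    refine ⟨h, hh', κ, fun y => ?_⟩
    have h1 : a' (κ y) = e.symm (h0 y) := LinearMap.congr_fun hκ y
    have h2 := congrArg Subtype.val (e.apply_symm_apply (h0 y))
    rw [← h1] at h2
    simpa [e, h0] using h2
  obtain ⟨h, hh, κ, hκ⟩ := key s
  obtain ⟨h', hh', κ', hκ'⟩ := key t
  let G := resGrid s a' ha' c' hc' h hh κ hκ
  let G' := resGrid t a' ha' c' hc' h' hh' κ' hκ'
  have fin : ∀ i j, Module.Finite A (RX M₂ a' c' i j : Type u) := by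
    intro i j
    fin_cases i <;> fin_cases j
    · exact (inferInstance : Module.Finite A (LinearMap.ker a'))
    · exact (inferInstance : Module.Finite A (Fin n₁ → A))
    · exact (inferInstance : Module.Finite A M₁)
    · exact (inferInstance : Module.Finite A (LinearMap.ker a' × LinearMap.ker c'))
    · exact (inferInstance : Module.Finite A ((Fin n₁ → A) × (Fin n₃ → A)))
    · exact (inferInstance : Module.Finite A M₂)
    · exact (inferInstance : Module.Finite A (LinearMap.ker c'))
    · exact (inferInstance : Module.Finite A (Fin n₃ → A))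
    · exact (inferInstance : Module.Finite A M₃)
  have rel := grid_relation (G.bc K) (G'.bc K)
  have e0 : D ((G.bc K).row 0) ((G'.bc K).row 0) = 1 := D_self ((G.bc K).row 0)
  have e1 : D ((G.bc K).row 2) ((G'.bc K).row 2) = 1 := D_self ((G.bc K).row 2)
  have e2 : D ((G.bc K).col 0) ((G'.bc K).col 0) = 1 := D_self ((G.bc K).col 0)
  have e3 : D ((G.bc K).col 1) ((G'.bc K).col 1) = 1 := D_self ((G.bc K).col 1)
  rw [e0, e1, e2, e3, one_mul, one_mul, one_mul] at rel
  obtain ⟨u, hu⟩ := D_free K (midSES s a' ha' c' hc' h hh κ hκ)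
    (midSES t a' ha' c' hc' h' hh' κ' hκ')
  have hu' : D ((G.bc K).row 1) ((G'.bc K).row 1) = Units.map (algebraMap A K).toMonoidHom u := hu
  have h5 : D ((G.bc K).col 2) ((G'.bc K).col 2) = D (s.bc K) (t.bc K) := rfl
  rw [hu', h5] at rel
  refine ⟨u⁻¹, ?_⟩
  rw [map_inv, eq_inv_iff_mul_eq_one]
  exact rel.symm

end Integral

end Pool.Agent.Helper49.KT
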